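import Pool.Agent.TH636.BC.Defs

/-!
# Gödel numbers of formulas (used only for the computability of the provability relation)
-/

set_option autoImplicit false

namespace Pool.Agent.TH636.BC

open Pool.Agent.TH672

/-- Gödel numbers -/
def gn : Fml → ℕ
  | .bot => Nat.pair 1 0
  | .eq x y => Nat.pair 2 (Nat.pair x y)
  | .zero x => Nat.pair 3 x
  | .succ x y => Nat.pair 4 (Nat.pair x y)
  | .add x y z => Nat.pair 5 (Nat.pair x (Nat.pair y z))
  | .mul x y z => Nat.pair 6 (Nat.pair x (Nat.pair y z))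
  | .op i a b c d => Nat.pair 7 (Nat.pair i (Nat.pair a (Nat.pair b (Nat.pair c d))))
  | .imp φ ψ => Nat.pair 8 (Nat.pair (gn φ) (gn ψ))
  | .all x φ => Nat.pair 9 (Nat.pair x (gn φ))

/-- The Gödel numbers are a decidable set, the strings can be computed and the Gödel number is
bounded by a primitive recursive function of the length (statement). -/
def GnStr : Prop :=
  (∃ F : ℕ → Bool, Primrec F ∧ ∀ n, F n = true ↔ ∃ φ, n = gn φ) ∧
  (∃ s : ℕ → List Bool, Primrec s ∧ ∀ φ, s (gn φ) = str φ) ∧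
  ∃ B : ℕ → ℕ, Primrec B ∧ Monotone B ∧ ∀ φ, gn φ ≤ B (str φ).length

/-- The logical axioms are a decidable set (statement). -/
def GnLog : Prop := ∃ L : ℕ → Bool, Primrec L ∧ ∀ n, L n = true ↔ ∃ φ, n = gn φ ∧ LogK φ

/-- The provability relation is decidable (statement). -/
def PrComp : Prop := ComputablePred (fun x : ℕ × ℕ × ℕ => PrRel x.1 x.2.1 x.2.2)

/-- Representability in Robinson arithmetic (statement). -/
def Repr : Prop := ∀ R : ℕ → ℕ → ℕ → Prop,
  REPred (fun x : ℕ × ℕ × ℕ => R x.1 x.2.1 x.2.2) →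
  REPred (fun x : ℕ × ℕ × ℕ => ¬ R x.1 x.2.1 x.2.2) →
  ∃ P : Fml, Arith P ∧ (∀ x, P.Free x → x = 2 ∨ x = 3 ∨ x = 4) ∧
    (∀ c m d, R c m d → ∃ k, Proves robinson k (inst 2 c (inst 3 m (inst 4 d P)))) ∧
    (∀ c m d, ¬ R c m d → ∃ k, Proves robinson k (inst 2 c (inst 3 m (inst 4 d P.neg))))

end Pool.Agent.TH636.BC
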