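import Pool.Agent.TH636.BC.Leib

/-!
# The chain of proofs
-/

set_option autoImplicit false

namespace Pool.Agent.TH636.BC

open Pool.Agent.TH672

/-- the renaming of the parameters -/
def fj (j x : ℕ) : ℕ :=
  if x = 7 then pr (3 * j) else if x = 9 then pr (3 * j + 1) else
    if x = 11 then pr (3 * j + 2) else x

/-- the interpretation of the schematic symbols -/
def Qj (D : Fml) (j a b s : ℕ) : ℕ → Fml :=
  if s = 11 then QG D a else if s = 12 then QG D b else QF j

theorem gd_j {D : Fml} (hD : ∀ x, D.Free x → x = 0) (j a b : ℕ) :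
    Gd (Ij j) (fj j) (Qj D j a b) := by
  refine ⟨fun x hx => ?_, fun x y hx hy h => ?_, fun i => ?_⟩
  · unfold fj Ij
    split_ifs
    · right; simp only [pr]; omega
    · right; simp only [pr]; omega
    · right; simp only [pr]; omega
    · left; exact hx
  · simp only [okv] at hx hy
    simp only [fj, pr] at h
    split_ifs at h <;> omega
  · unfold Qj
    split_ifs
    · exact fam_QG hD a j
    · exact fam_QG hD b j
    · exact fam_QF j

theorem fj_le (j x : ℕ) : fj j x ≤ (x + 16) * (j + 1) := by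
  unfold fj pr
  split_ifs
  · nlinarith
  · nlinarith
  · nlinarith
  · nlinarith

variable {J : Type} {Γ C : J → List Fml} {N : J → ℕ}

theorem uni_j {D : Fml} (hD : ∀ x, D.Free x → x = 0) {jj aa bb : J → ℕ}
    (hj : ∀ t, (jj t + 1) ^ 3 ≤ N t + 1) (ha : ∀ t, aa t ≤ N t) (hb : ∀ t, bb t ≤ N t) :
    Uni Γ C N (fun t => Ij (jj t)) (fun t => fj (jj t)) (fun t => Qj D (jj t) (aa t) (bb t)) := by
  have hj' : ∀ t, jj t + 1 ≤ N t + 1 := fun t => le_trans (Nat.le_self_pow (by norm_num) _) (hj t)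
  have lbf : ∀ x, LB N (fun t => fj (jj t) x) := fun x => ⟨x + 16, fun t =>
    (fj_le (jj t) x).trans (Nat.mul_le_mul_left _ (hj' t))⟩
  have lba : LB N aa := ⟨1, fun t => by have := ha t; omega⟩
  have lbb : LB N bb := ⟨1, fun t => by have := hb t; omega⟩
  have cube : ∀ t, (jj t + 1) * ((jj t + 1) * (jj t + 1)) ≤ N t + 1 := fun t => by
    have := hj t
    calc _ = (jj t + 1) ^ 3 := by ring
      _ ≤ _ := this
  have hne : ∀ t x, okv x → fj (jj t) x ≠ 0 := fun t x hx => by
    have := ((gd_j hD (jj t) (aa t) (bb t)).maps x hx).ge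
    omega
  refine ⟨fun t => gd_j hD _ _ _, fun x _ => lbf x, fun i x hx => ?_, fun i x y hx hy => ?_⟩
  · by_cases h1 : i = 11
    · subst h1
      exact ub_QG lba (lbf x)
    · by_cases h2 : i = 12
      · subst h2
        exact ub_QG lbb (lbf x)
      · have h3 : (fun t => Qj D (jj t) (aa t) (bb t) i (fj (jj t) x)) =
            fun t => QF (jj t) (fj (jj t) x) := by
          funext t
          simp [Qj, h1, h2]
        rw [h3]
        refine ⟨131 + 2 * x, fun t => ⟨?_, ?_⟩⟩
        · refine (len_QF _ _).trans ?_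
          have h4 := fj_le (jj t) x
          have h5 := cube t
          set a := jj t
          set v := fj a x
          have h6 : 75 + 24 * a + 2 * v ≤ (131 + 2 * x) * (a + 1) := by nlinarith
          have h7 : a + 1 ≤ (a + 1) * (a + 1) := by nlinarith
          calc (a + 1) * (75 + 24 * a + 2 * v) ≤ (a + 1) * ((131 + 2 * x) * (a + 1)) :=
                Nat.mul_le_mul_left _ h6
            _ = (131 + 2 * x) * ((a + 1) * (a + 1)) := by ring
            _ ≤ (131 + 2 * x) * ((a + 1) * ((a + 1) * (a + 1))) :=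
                Nat.mul_le_mul_left _ (Nat.mul_le_mul_left _ h7)
            _ ≤ _ := Nat.mul_le_mul_left _ h5
        · simp only [lev, rk_QF]
          omega
  · by_cases h1 : i = 11
    · subst h1
      exact leib_QG lba (lbf x) (lbf y) (fun t => hne t x hx) (fun t => hne t y hy)
    · by_cases h2 : i = 12
      · subst h2
        exact leib_QG lbb (lbf x) (lbf y) (fun t => hne t x hx) (fun t => hne t y hy)
      · have h3 : ∀ z, (fun t => Qj D (jj t) (aa t) (bb t) i (fj (jj t) z)) =
            fun t => QF (jj t) (fj (jj t) z) := by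
          intro z
          funext t
          simp [Qj, h1, h2]
        have h3' : (fun t => (Fm.eq (fj (jj t) x) (fj (jj t) y)).imp
            ((Qj D (jj t) (aa t) (bb t) i (fj (jj t) x)).imp
              (Qj D (jj t) (aa t) (bb t) i (fj (jj t) y)))) =
            fun t => (Fm.eq (fj (jj t) x) (fj (jj t) y)).imp
              ((QF (jj t) (fj (jj t) x)).imp (QF (jj t) (fj (jj t) y))) := by
          funext t
          rw [congrFun (h3 x) t, congrFun (h3 y) t]
        rw [h3']
        have ubq : ∀ z, UB N (fun t => QF (jj t) (fj (jj t) z)) := by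
          intro z
          refine ⟨131 + 2 * z, fun t => ⟨?_, ?_⟩⟩
          · refine (len_QF _ _).trans ?_
            have h4 := fj_le (jj t) z
            have h5 := cube t
            set a := jj t
            set v := fj a z
            have h6 : 75 + 24 * a + 2 * v ≤ (131 + 2 * z) * (a + 1) := by nlinarith
            have h7 : a + 1 ≤ (a + 1) * (a + 1) := by nlinarith
            calc (a + 1) * (75 + 24 * a + 2 * v) ≤ (a + 1) * ((131 + 2 * z) * (a + 1)) :=
                  Nat.mul_le_mul_left _ h6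
              _ = (131 + 2 * z) * ((a + 1) * (a + 1)) := by ring
              _ ≤ (131 + 2 * z) * ((a + 1) * ((a + 1) * (a + 1))) :=
                  Nat.mul_le_mul_left _ (Nat.mul_le_mul_left _ h7)
              _ ≤ _ := Nat.mul_le_mul_left _ h5
          · simp only [lev, rk_QF]
            omega
        obtain ⟨K, hK⟩ := leib_QF
        refine ⟨(ub_eq (lbf x) (lbf y)).imp ((ubq x).imp (ubq y)),
          K * (33 + x + y), fun t => ?_⟩
        refine (hK (Γ t) (C t) (jj t) (fj (jj t) x) (fj (jj t) y)).le ?_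
          (Nat.le_mul_of_pos_right _ (by omega))
        have h4 := fj_le (jj t) x
        have h4' := fj_le (jj t) y
        have h5 := cube t
        set a := jj t
        set v := fj a x
        set w := fj a y
        have h6 : a + 1 + v + w ≤ (33 + x + y) * (a + 1) := by nlinarith
        calc K * ((a + 1) * ((a + 1) * (a + 1 + v + w)))
            ≤ K * ((a + 1) * ((a + 1) * ((33 + x + y) * (a + 1)))) :=
              Nat.mul_le_mul_left _ (Nat.mul_le_mul_left _ (Nat.mul_le_mul_left _ h6))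
          _ = K * (33 + x + y) * ((a + 1) * ((a + 1) * (a + 1))) := by ring
          _ ≤ _ := Nat.mul_le_mul_left _ h5

/-! ### The translations of the schematic formulas -/

theorem trf_T0 (D : Fml) (j a b : ℕ) : ∀ ψ ∈ T0, trf (fj j) (Qj D j a b) ψ = ψ := by
  intro ψ hψ
  simp only [T0, List.mem_cons, List.not_mem_nil, or_false] at hψ
  rcases hψ with rfl | rfl | rfl | rfl | rfl | rfl | rfl | rfl | rfl | rfl | rfl | rfl <;>
    simp [trf, fj, Fm.ex, Fm.neg, Fm.and, Fm.or, nat, lt, ht, col]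

theorem trf_Ph (D : Fml) (j a b : ℕ) :
    trf (fj j) (Qj D j a b) (Ph Fs Gs) = Ph (QF j) (QG D a) := by
  simp [Ph, Iv, Lg, trf, fj, Fm.ex, Fm.neg, Fm.and, nat, lt, ht, col, Fs, Gs, Qj]

theorem trf_sH (D : Fml) (j a b : ℕ) : trf (fj j) (Qj D j a b) sH =
    .all (pr (3 * j)) (.all (pr (3 * j + 1)) (.all (pr (3 * j + 2)) (Ph (QF (j + 1)) (QG D b)))) := by
  simp [sH, Fr, Ph, Iv, Lg, trf, fj, Fm.ex, Fm.neg, Fm.and, nat, lt, ht, col, Fs, Gs', Qj, QF]

theorem trf_sL (D : Fml) (j a b : ℕ) : trf (fj j) (Qj D j a b) sL =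
    .all 21 (.imp (.all 23 (.imp (.succ 21 23) (QG D b 23))) (QG D a 21)) := by
  simp [sL, trf, fj, Gs, Gs', Qj]

theorem trf_sE (D : Fml) (j a b : ℕ) : trf (fj j) (Qj D j a b) sE =
    .all 15 (.imp (.zero 15) (QG D a 15)) := by
  simp [sE, trf, fj, Gs, Qj]

theorem trf_sP (D : Fml) (j a b : ℕ) : trf (fj j) (Qj D j a b) sP =
    Ph (QF 0) (QG D a) := by
  simp [sP, Ph, Iv, Lg, trf, fj, Fm.ex, Fm.neg, Fm.and, nat, lt, ht, col, Gs, Qj, QF]

theorem trf_sK (P : Fml) (j b : ℕ) : trf (fj j) (Qj (DD P) j 0 b) sK = K0 P := by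
  simp [sK, K0, trf, fj, Fm.neg, nat, lt, col, Gs, Qj, QG, DD]

theorem ok_T0 : ∀ ψ ∈ T0, ψ.Closed ∧ Avk ψ := by
  intro ψ hψ
  simp only [T0, List.mem_cons, List.not_mem_nil, or_false] at hψ
  rcases hψ with rfl | rfl | rfl | rfl | rfl | rfl | rfl | rfl | rfl | rfl | rfl | rfl <;>
    refine ⟨fun x hx => ?_, ?_⟩
  all_goals first
    | (simp [Avk, okv, Fm.ex, Fm.neg, Fm.and, Fm.or, nat, lt, ht, col]; done)
    | (simp [Fm.Free, Fm.ex, Fm.neg, Fm.and, Fm.or, nat, lt, ht, col] at hx; done)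
    | (simp [Fm.Free, Fm.ex, Fm.neg, Fm.and, Fm.or, nat, lt, ht, col] at hx; omega)

theorem ok_s : (∀ ψ ∈ [sK, sH, sL, sP, sE, Ph Fs Gs], ψ.Closed ∧ Avk ψ) := by
  intro ψ hψ
  simp only [List.mem_cons, List.not_mem_nil, or_false] at hψ
  rcases hψ with rfl | rfl | rfl | rfl | rfl | rfl <;>
    refine ⟨fun x hx => ?_, ?_⟩
  all_goals first
    | (simp [Avk, okv, Fm.ex, Fm.neg, Fm.and, Fm.or, nat, lt, ht, col, sK, sH, sL, sP, sE, Ph, Iv,
        Lg, Fr, Fs, Gs, Gs']; done)
    | (simp [Fm.Free, Fm.ex, Fm.neg, Fm.and, Fm.or, nat, lt, ht, col, sK, sH, sL, sP, sE, Ph, Iv,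
        Lg, Fr, Fs, Gs, Gs'] at hx; done)
    | (simp [Fm.Free, Fm.ex, Fm.neg, Fm.and, Fm.or, nat, lt, ht, col, sK, sH, sL, sP, sE, Ph, Iv,
        Lg, Fr, Fs, Gs, Gs'] at hx; omega)

end Pool.Agent.TH636.BC
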