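import Pool.Agent.TH636.BC.PM
import Pool.Agent.TH636.BC.Cd

/-!
# Consistency, and existence of a numeration
-/

set_option autoImplicit false

namespace Pool.Agent.TH636.BC

open Pool.Agent.TH672

theorem vlt_len : ∀ (φ : Fml) {m : ℕ}, (str φ).length ≤ m → Vlt m φ := by
  intro φ
  induction φ with
  | bot => intro m _; trivial
  | eq x y =>
    intro m h
    simp [str, varStr] at h
    simp only [Vlt]; omega
  | zero x =>
    intro m h
    simp [str, varStr] at h
    simp only [Vlt]; omega
  | succ x y =>
    intro m h
    simp [str, varStr] at h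
    simp only [Vlt]; omega
  | add x y z =>
    intro m h
    simp [str, varStr] at h
    simp only [Vlt]; omega
  | mul x y z =>
    intro m h
    simp [str, varStr] at h
    simp only [Vlt]; omega
  | op i a b c d =>
    intro m h
    simp [str, varStr] at h
    simp only [Vlt]; omega
  | imp φ ψ ih ih' =>
    intro m h
    simp [str] at h
    exact ⟨ih (by omega), ih' (by omega)⟩
  | all x φ ih =>
    intro m h
    simp [str, varStr] at h
    exact ⟨by omega, ih (by omega)⟩

theorem len_le_strs {φ : Fml} {π : List Fml} (h : φ ∈ π) : (str φ).length ≤ (strs π).length := by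
  induction π with
  | nil => simp at h
  | cons ψ π ih =>
    simp only [strs, List.flatMap_cons, List.length_append]
    rcases List.mem_cons.1 h with rfl | h
    · omega
    · have := ih h
      simp only [strs] at this
      omega

theorem ok_const (m : ℕ) : Ok m ⟨fun _ => .inl 0, fun _ _ => 0⟩ := by
  constructor <;> simp

theorem cons_of (h1 : SoundS) (h2 : AxS) {P : Fml} (hP : Numerates P) :
    ∀ m, ¬ Proves (Ax P) m .bot := by
  intro m
  induction m using Nat.strong_induction_on with
  | _ m ih =>
    rintro ⟨π, h3, h4⟩
    have h5 := h1 m (Ax P) (Fm.bot :: π) h3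
      (fun φ hφ => vlt_len φ ((len_le_strs hφ).trans h4)) (h2 P hP m ih) Fm.bot (by simp)
    exact h5 _ (ok_const m)

theorem exists_numerates (h1 : Repr) (h2 : PrComp) : ∃ P, Numerates P := by
  classical
  obtain ⟨P, h3, h4, h5, h6⟩ := h1 PrRel (ComputablePred.computable_iff_re_compl_re.1 h2).1
    (ComputablePred.computable_iff_re_compl_re.1 h2).2
  exact ⟨P, h3, h4, h5, h6⟩

end Pool.Agent.TH636.BC
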