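import Pool.Agent.TH672.Fm

/-!
# Finite consistency statements and proofs of bounded quantifier complexity: definitions

First-order logic with equality in the language with the predicate symbols `Z` (zero), `S`
(successor), `A` (addition), `M` (multiplication) and additional predicate symbols `R i` (`i : ℕ`)
with four arguments, a Hilbert calculus with modus ponens and generalization, formulas and proofs
as binary strings, numerals, finite consistency statements, the classes `Σ_k`.
-/

set_option autoImplicit false

namespace Pool.Agent.TH636.BC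

open Pool.Agent.TH672

/-- The formulas. The variables are the natural numbers. The atomic formulas are `⊥`, `x = y`,
`Z x` (`x` is zero), `S x y` (`y` is the successor of `x`), `A x y z` (`x + y = z`), `M x y z`
(`x y = z`) and `R i a b c d`; the connective is `→`, the quantifier is `∀`. -/
abbrev Fml : Type := Fm ℕ

/-- The formula `φ` belongs to `Γ`, is a logical axiom, or follows from formulas in the list `π`
by modus ponens or by generalization. -/
def Step (Γ π : List Fml) (φ : Fml) : Prop :=
  φ ∈ Γ ∨ LogK φ ∨ (∃ ψ ∈ π, ψ.imp φ ∈ π) ∨ ∃ ψ ∈ π, ∃ x, φ = Fm.all x ψ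

/-- The list is a proof from `Γ`; the last line of the proof is the first member of the list. -/
def IsProof (Γ : List Fml) : List Fml → Prop
  | [] => True
  | φ :: π => IsProof Γ π ∧ Step Γ π φ

/-! ### Strings -/

/-- The string of a formula (Polish notation; the string of the number `x` is `1 ⋯ 1 0` with `x`
ones). -/
def str : Fml → List Bool
  | .bot => [false, false, false, false]
  | .eq x y => [false, false, false, true] ++ varStr x ++ varStr y
  | .zero x => [false, false, true, false] ++ varStr x
  | .succ x y => [false, false, true, true] ++ varStr x ++ varStr y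
  | .add x y z => [false, true, false, false] ++ varStr x ++ varStr y ++ varStr z
  | .mul x y z => [false, true, false, true] ++ varStr x ++ varStr y ++ varStr z
  | .op i a b c d => [false, true, true, false] ++ varStr i ++ varStr a ++ varStr b ++ varStr c ++
      varStr d
  | .imp φ ψ => [false, true, true, true] ++ str φ ++ str ψ
  | .all x φ => [true, false, false, false] ++ varStr x ++ str φ

/-- The string of a list of formulas. -/
def strs (Γ : List Fml) : List Bool := Γ.flatMap str

/-- `Γ ⊢^m φ`: the formula `φ` has a proof from `Γ` whose string has length at most `m`. -/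
def Proves (Γ : List Fml) (m : ℕ) (φ : Fml) : Prop :=
  ∃ π, IsProof Γ (φ :: π) ∧ (strs (φ :: π)).length ≤ m

/-- The code of a list of formulas: the number whose dyadic digits are the string. -/
def code (Γ : List Fml) : ℕ := num (strs Γ)

/-! ### Numerals -/

/-- Let `v₁` be the successor of `v₀`, and let then `v₀` be `v₁`; then `ψ`. -/
def blk (ψ : Fml) : Fml := .all 1 (.imp (.succ 0 1) (.all 0 (.imp (.eq 0 1) ψ)))

/-- The formula `φ (n)` where the numeral of `n` is substituted for the variable `x`; in a language
without function symbols this means that the values `0`, `1`, ..., `n` are computed by quantifiers: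
let `v₀` be zero; `n` times: let `v₁` be the successor of `v₀` and let then `v₀` be `v₁`; let `x`
be `v₀`; then `φ`. -/
def inst (x n : ℕ) (φ : Fml) : Fml :=
  .all 0 (.imp (.zero 0) (blk^[n] (.all x (.imp (.eq x 0) φ))))

/-! ### Robinson arithmetic -/

/-- The axioms of Robinson arithmetic `Q`, with relation symbols for the functions. -/
def robinson : List Fml := [
  -- zero exists and is unique
  .ex 0 (.zero 0),
  .all 0 (.all 1 (.imp (.zero 0) (.imp (.zero 1) (.eq 0 1)))),
  -- the successor is a function
  .all 0 (.ex 1 (.succ 0 1)),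
  .all 0 (.all 1 (.all 2 (.imp (.succ 0 1) (.imp (.succ 0 2) (.eq 1 2))))),
  -- addition is a function
  .all 0 (.all 1 (.ex 2 (.add 0 1 2))),
  .all 0 (.all 1 (.all 2 (.all 3 (.imp (.add 0 1 2) (.imp (.add 0 1 3) (.eq 2 3)))))),
  -- multiplication is a function
  .all 0 (.all 1 (.ex 2 (.mul 0 1 2))),
  .all 0 (.all 1 (.all 2 (.all 3 (.imp (.mul 0 1 2) (.imp (.mul 0 1 3) (.eq 2 3)))))),
  -- zero is not a successor
  .all 0 (.all 1 (.imp (.succ 0 1) (.neg (.zero 1)))),
  -- the successor is injective
  .all 0 (.all 1 (.all 2 (.imp (.succ 0 2) (.imp (.succ 1 2) (.eq 0 1))))),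
  -- everything else is a successor
  .all 0 (.or (.zero 0) (.ex 1 (.succ 1 0))),
  -- `x + 0 = x`
  .all 0 (.all 1 (.imp (.zero 1) (.add 0 1 0))),
  -- `x + S y = S (x + y)`
  .all 0 (.all 1 (.all 2 (.all 3 (.all 4 (.imp (.succ 1 2) (.imp (.add 0 1 3)
    (.imp (.succ 3 4) (.add 0 2 4)))))))),
  -- `x * 0 = 0`
  .all 0 (.all 1 (.imp (.zero 1) (.mul 0 1 1))),
  -- `x * S y = x * y + x`
  .all 0 (.all 1 (.all 2 (.all 3 (.all 4 (.imp (.succ 1 2) (.imp (.mul 0 1 3)
    (.imp (.add 3 0 4) (.mul 0 2 4))))))))]

/-! ### Formalized provability -/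

/-- The formula belongs to the language of arithmetic. -/
def Arith : Fml → Prop
  | .op _ _ _ _ _ => False
  | .imp φ ψ => Arith φ ∧ Arith ψ
  | .all _ φ => Arith φ
  | _ => True

/-- `c` is the code of a list `Γ` of formulas, `d` is the code of a formula `φ`, and `Γ ⊢^m φ`. -/
def PrRel (c m d : ℕ) : Prop :=
  ∃ (Γ : List Fml) (φ : Fml), c = code Γ ∧ d = code [φ] ∧ Proves Γ m φ

/-- The arithmetical formula `P` with the free variables `2`, `3`, `4` numerates the relation
`PrRel` in Robinson arithmetic. -/
structure Numerates (P : Fml) : Prop where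
  arith : Arith P
  free : ∀ x, P.Free x → x = 2 ∨ x = 3 ∨ x = 4
  pos : ∀ c m d, PrRel c m d → ∃ k, Proves robinson k (inst 2 c (inst 3 m (inst 4 d P)))
  neg : ∀ c m d, ¬ PrRel c m d → ∃ k, Proves robinson k (inst 2 c (inst 3 m (inst 4 d P.neg)))

/-- The formula `Con_Γ (x)`, where `x` is the variable `3`: there is no proof of `⊥` from `Γ` whose
length is at most `x`. -/
def con (P : Fml) (Γ : List Fml) : Fml := inst 2 (code Γ) (inst 4 (code [Fm.bot]) P.neg)

/-- The sentence `Con_Γ (n)`. -/
def conAt (P : Fml) (Γ : List Fml) (n : ℕ) : Fml := inst 3 n (con P Γ)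

/-! ### Quantifier complexity -/

/-- `Cx true k φ`: the formula `φ` is a `Σ_k` formula; `Cx false k φ`: the formula `φ` is a `Π_k`
formula. -/
inductive Cx : Bool → ℕ → Fml → Prop
  | bot (s : Bool) (k : ℕ) : Cx s k .bot
  | eq (s : Bool) (k x y : ℕ) : Cx s k (.eq x y)
  | zero (s : Bool) (k x : ℕ) : Cx s k (.zero x)
  | succ (s : Bool) (k x y : ℕ) : Cx s k (.succ x y)
  | add (s : Bool) (k x y z : ℕ) : Cx s k (.add x y z)
  | mul (s : Bool) (k x y z : ℕ) : Cx s k (.mul x y z)
  | op (s : Bool) (k i a b c d : ℕ) : Cx s k (.op i a b c d)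
  | imp {s : Bool} {k : ℕ} {φ ψ : Fml} : Cx (!s) k φ → Cx s k ψ → Cx s k (.imp φ ψ)
  | all {k x : ℕ} {φ : Fml} : Cx false (k + 1) φ → Cx false (k + 1) (.all x φ)
  | lift {s s' : Bool} {k : ℕ} {φ : Fml} : Cx s k φ → Cx s' (k + 1) φ

end Pool.Agent.TH636.BC
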