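import Pool.Agent.TH636.BC.Defs

/-!
# Extending proofs, with bounds for the lengths and the quantifier complexity
-/

set_option autoImplicit false

namespace Pool.Agent.TH636.BC

open Pool.Agent.TH672

/-- the length of a formula -/
def len (φ : Fml) : ℕ := (str φ).length

/-- the rank: the least `k` such that the formula is `Σ_k` (`Π_k`) -/
def rk : Fml → Bool → ℕ
  | .imp φ ψ, s => max (rk φ (!s)) (rk ψ s)
  | .all _ φ, s => max 1 (rk φ false) + (if s then 1 else 0)
  | _, _ => 0

/-- the level of a formula -/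
def lev (φ : Fml) : ℕ := rk φ true

theorem Cx.mono {s : Bool} {k l : ℕ} {φ : Fml} (h : Cx s k φ) (hl : k ≤ l) : Cx s l φ := by
  induction l, hl using Nat.le_induction with
  | base => exact h
  | succ n _ ih => exact ih.lift

theorem cx_of_rk : ∀ {φ : Fml} {s : Bool} {k : ℕ}, rk φ s ≤ k → Cx s k φ := by
  intro φ
  induction φ with
  | bot => intro s k _; exact Cx.bot _ _
  | eq x y => intro s k _; exact Cx.eq _ _ _ _
  | zero x => intro s k _; exact Cx.zero _ _ _
  | succ x y => intro s k _; exact Cx.succ _ _ _ _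
  | add x y z => intro s k _; exact Cx.add _ _ _ _ _
  | mul x y z => intro s k _; exact Cx.mul _ _ _ _ _
  | op i a b c d => intro s k _; exact Cx.op _ _ _ _ _ _ _
  | imp φ ψ ih ih' =>
    intro s k h
    simp only [rk] at h
    exact Cx.imp (ih ((le_max_left _ _).trans h)) (ih' ((le_max_right _ _).trans h))
  | all x φ ih =>
    intro s k h
    have h0 : Cx false (max 1 (rk φ false)) (Fm.all x φ) := by
      obtain ⟨l, hl⟩ : ∃ l, max 1 (rk φ false) = l + 1 :=
        ⟨max 1 (rk φ false) - 1, by have := le_max_left 1 (rk φ false); omega⟩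
      rw [hl]
      refine Cx.all (ih ?_)
      rw [← hl]
      exact le_max_right _ _
    cases s with
    | false =>
      simp only [rk, Bool.false_eq_true, if_false, Nat.add_zero] at h
      exact h0.mono h
    | true =>
      simp only [rk, if_true] at h
      exact (h0.lift (s' := true)).mono h

theorem rk_not (φ : Fml) (s : Bool) : rk φ s ≤ rk φ (!s) + 1 := by
  induction φ generalizing s with
  | imp φ ψ ih ih' =>
    simp only [rk]
    have h1 := ih (!s)
    have h2 := ih' s
    simp only [Bool.not_not] at h1 ⊢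
    refine max_le (h1.trans ?_) (h2.trans ?_)
    · exact Nat.add_le_add_right (le_max_left _ _) 1
    · exact Nat.add_le_add_right (le_max_right _ _) 1
  | all x φ ih =>
    have := le_max_right 1 (rk φ false)
    cases s <;> simp [rk] <;> omega
  | _ => simp [rk]

theorem lev_imp (φ ψ : Fml) : lev (φ.imp ψ) ≤ lev φ + lev ψ + 1 := by
  simp only [lev, rk]
  have h := rk_not φ false
  simp only [Bool.not_false, Bool.not_true] at h ⊢
  exact max_le (by omega) (by omega)

theorem lev_all (x : ℕ) (φ : Fml) : lev (Fm.all x φ) ≤ lev φ + 3 := by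
  simp only [lev, rk, if_true]
  have h := rk_not φ false
  simp only [Bool.not_false] at h
  have : max 1 (rk φ false) ≤ rk φ true + 2 := max_le (by omega) (by omega)
  omega

theorem lev_left (φ ψ : Fml) : lev φ ≤ lev (φ.imp ψ) + 1 := by
  simp only [lev, rk]
  have h := rk_not φ true
  simp only [Bool.not_true] at h ⊢
  exact h.trans (Nat.add_le_add_right (le_max_left _ _) 1)

theorem lev_right (φ ψ : Fml) : lev ψ ≤ lev (φ.imp ψ) := by
  simp only [lev, rk]
  exact le_max_right _ _

theorem lev_of_all (x : ℕ) (φ : Fml) : lev φ ≤ lev (Fm.all x φ) + 1 := by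
  simp only [lev, rk, if_true]
  have h := rk_not φ true
  simp only [Bool.not_true] at h
  have := le_max_right 1 (rk φ false)
  omega

/-- the length of a list of formulas -/
def lens (L : List Fml) : ℕ := (strs L).length

@[simp] theorem lens_nil : lens [] = 0 := rfl

@[simp] theorem lens_cons (φ : Fml) (L : List Fml) : lens (φ :: L) = len φ + lens L := by
  simp [lens, strs, len]

@[simp] theorem lens_append (L L' : List Fml) : lens (L ++ L') = lens L + lens L' := by
  simp [lens, strs]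

/-- the list `L` of formulas (the last line first) is a correct continuation of `C` -/
def Adds (Γ C : List Fml) : List Fml → Prop
  | [] => True
  | φ :: L => Adds Γ C L ∧ Step Γ (L ++ C) φ

/-- `φ` can be derived from `Γ` and from the lines `C` with additional lines of length `m` and of
level at most `k` -/
def Ext (Γ C : List Fml) (m k : ℕ) (φ : Fml) : Prop :=
  ∃ L, Adds Γ C L ∧ φ ∈ L ++ C ∧ lens L ≤ m ∧ ∀ ψ ∈ L, lev ψ ≤ k

theorem Step.mono {Γ π π' : List Fml} {φ : Fml} (h : Step Γ π φ) (hs : ∀ ψ ∈ π, ψ ∈ π') :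
    Step Γ π' φ := by
  rcases h with h | h | ⟨ψ, h1, h2⟩ | ⟨ψ, h1, x, h2⟩
  · exact Or.inl h
  · exact Or.inr (Or.inl h)
  · exact Or.inr (Or.inr (Or.inl ⟨ψ, hs _ h1, hs _ h2⟩))
  · exact Or.inr (Or.inr (Or.inr ⟨ψ, hs _ h1, x, h2⟩))

theorem Adds.mono {Γ C C' : List Fml} (hC : ∀ ψ ∈ C, ψ ∈ C') :
    ∀ {L : List Fml}, Adds Γ C L → Adds Γ C' L
  | [], _ => trivial
  | _ :: L, h => ⟨Adds.mono hC h.1, h.2.mono fun ψ hψ => by
      rcases List.mem_append.1 hψ with h | h
      · exact List.mem_append_left _ h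
      · exact List.mem_append_right _ (hC _ h)⟩

theorem Adds.append {Γ C : List Fml} {L : List Fml} (hL : Adds Γ C L) :
    ∀ {L' : List Fml}, Adds Γ (L ++ C) L' → Adds Γ C (L' ++ L)
  | [], _ => hL
  | φ :: L', h => ⟨Adds.append hL h.1, by
      have h2 := h.2
      rw [← List.append_assoc] at h2
      exact h2⟩

/-- drop the lines that are already there: a formula of the context may be used as a line -/
theorem Adds.cut {Γ C : List Fml} {L : List Fml} (hL : Adds Γ C L) {φ : Fml}
    (hφ : φ ∈ L ++ C) {L' : List Fml} (h : Adds Γ (φ :: C) L') : Adds Γ C (L' ++ L) := by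
  refine Adds.append hL (Adds.mono ?_ h)
  intro ψ hψ
  rcases List.mem_cons.1 hψ with rfl | hψ
  · exact hφ
  · exact List.mem_append_right _ hψ

namespace Ext

variable {Γ C C' : List Fml} {a b m m' k k' : ℕ} {φ ψ χ : Fml}

theorem mono (h : Ext Γ C m k φ) (hC : ∀ ψ ∈ C, ψ ∈ C') (hm : m ≤ m') (hk : k ≤ k') :
    Ext Γ C' m' k' φ := by
  obtain ⟨L, h1, h2, h3, h4⟩ := h
  refine ⟨L, h1.mono hC, ?_, h3.trans hm, fun ψ hψ => (h4 ψ hψ).trans hk⟩
  rcases List.mem_append.1 h2 with h | h
  · exact List.mem_append_left _ h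
  · exact List.mem_append_right _ (hC _ h)

theorem le (h : Ext Γ C m k φ) (hm : m ≤ m') (hk : k ≤ k') : Ext Γ C m' k' φ :=
  h.mono (fun _ h => h) hm hk

theorem ctx (h : Ext Γ C m k φ) (hC : ∀ ψ ∈ C, ψ ∈ C') : Ext Γ C' m k φ :=
  h.mono hC le_rfl le_rfl

theorem hyp (h : φ ∈ C) : Ext Γ C 0 0 φ := ⟨[], trivial, by simpa using h, by simp, by simp⟩

theorem of_step (h : Step Γ C φ) : Ext Γ C (len φ) (lev φ) φ :=
  ⟨[φ], ⟨trivial, by simpa using h⟩, by simp, by simp, by simp⟩

theorem ax (h : φ ∈ Γ) : Ext Γ C (len φ) (lev φ) φ := of_step (Or.inl h)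

theorem log (h : LogK φ) : Ext Γ C (len φ) (lev φ) φ := of_step (Or.inr (Or.inl h))

theorem cut (h : Ext Γ C a k φ) (h' : Ext Γ (φ :: C) b k ψ) : Ext Γ C (a + b) k ψ := by
  obtain ⟨L, h1, h2, h3, hl⟩ := h
  obtain ⟨L', h4, h5, h6, hl'⟩ := h'
  refine ⟨L' ++ L, Adds.cut h1 h2 h4, ?_, by rw [lens_append]; omega, fun χ hχ => ?_⟩
  · rcases List.mem_append.1 h5 with h | h
    · exact List.mem_append_left _ (List.mem_append_left _ h)
    · rcases List.mem_cons.1 h with rfl | h
      · rcases List.mem_append.1 h2 with h | h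
        · exact List.mem_append_left _ (List.mem_append_right _ h)
        · exact List.mem_append_right _ h
      · exact List.mem_append_right _ h
  · rcases List.mem_append.1 hχ with h | h
    · exact hl' _ h
    · exact hl _ h

theorem mp (h : Ext Γ C a k (φ.imp ψ)) (h' : Ext Γ C b k φ) (hk : lev ψ ≤ k) :
    Ext Γ C (a + b + len ψ) k ψ := by
  have h1 : Ext Γ (φ :: φ.imp ψ :: C) (len ψ) k ψ :=
    (of_step (Or.inr (Or.inr (Or.inl ⟨φ, by simp, by simp⟩)))).le le_rfl hk
  have h2 : Ext Γ (φ.imp ψ :: C) (b + len ψ) k ψ :=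
    cut (h'.ctx fun _ h => List.mem_cons_of_mem _ h) h1
  exact (cut h h2).le (by omega) le_rfl

theorem gen (x : ℕ) (h : Ext Γ C a k φ) (hk : lev (Fm.all x φ) ≤ k) :
    Ext Γ C (a + len (Fm.all x φ)) k (Fm.all x φ) :=
  cut h ((of_step (Or.inr (Or.inr (Or.inr ⟨φ, by simp, x, rfl⟩)))).le le_rfl hk)

end Ext

/-- several cuts -/
theorem Ext.cuts {Γ C : List Fml} {a b k : ℕ} {ψ : Fml} :
    ∀ {D : List Fml}, (∀ φ ∈ D, Ext Γ C a k φ) → Ext Γ (D ++ C) b k ψ →
      Ext Γ C (D.length * a + b) k ψ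
  | [], _, h => by simpa using h
  | φ :: D, hD, h => by
      have h1 : Ext Γ (φ :: C) (D.length * a + b) k ψ :=
        Ext.cuts (D := D) (fun χ hχ => (hD χ (List.mem_cons_of_mem _ hχ)).ctx
          fun _ h => List.mem_cons_of_mem _ h) (h.ctx fun χ hχ => by
            simp only [List.mem_append, List.mem_cons, List.cons_append] at hχ ⊢
            tauto)
      refine ((hD φ (by simp)).cut h1).le ?_ le_rfl
      rw [List.length_cons, Nat.succ_mul]
      omega

theorem adds_isProof {Γ : List Fml} : ∀ {L : List Fml}, Adds Γ [] L → IsProof Γ L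
  | [], _ => trivial
  | _ :: _, h => ⟨adds_isProof h.1, by simpa using h.2⟩

theorem isProof_tail {Γ : List Fml} : ∀ {L : List Fml} {φ : Fml}, IsProof Γ L → φ ∈ L →
    ∃ π, IsProof Γ (φ :: π) ∧ lens (φ :: π) ≤ lens L ∧ ∀ ψ ∈ φ :: π, ψ ∈ L
  | ψ :: L, φ, h, hφ => by
      rcases List.mem_cons.1 hφ with rfl | h'
      · exact ⟨L, h, le_rfl, fun _ h => h⟩
      · obtain ⟨π, h1, h2, h3⟩ := isProof_tail h.1 h'
        exact ⟨π, h1, h2.trans (by simp), fun χ hχ => List.mem_cons_of_mem _ (h3 χ hχ)⟩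

theorem Ext.proves {Γ : List Fml} {m k : ℕ} {φ : Fml} (h : Ext Γ [] m k φ) :
    ∃ π, IsProof Γ (φ :: π) ∧ (strs (φ :: π)).length ≤ m ∧ ∀ ψ ∈ φ :: π, Cx true k ψ := by
  obtain ⟨L, h1, h2, h3, h4⟩ := h
  obtain ⟨π, h5, h6, h7⟩ := isProof_tail (adds_isProof h1) (by simpa using h2)
  exact ⟨π, h5, h6.trans h3, fun ψ hψ => cx_of_rk (h4 _ (h7 _ hψ))⟩

theorem len_imp (φ ψ : Fml) : len (φ.imp ψ) = len φ + len ψ + 4 := by
  simp only [len, str, List.length_append, List.length_cons, List.length_nil]; omega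

theorem len_all (x : ℕ) (φ : Fml) : len (Fm.all x φ) = len φ + x + 5 := by
  simp only [len, str, varStr, List.length_append, List.length_cons, List.length_nil,
    List.length_replicate]
  omega

theorem len_pos (φ : Fml) : 0 < len φ := by
  cases φ <;> simp [len, str]

/-- every theorem has a proof -/
theorem pv_ext {Γ : List Fml} {T : Fml → Prop} (hT : ∀ φ, T φ → φ ∈ Γ) {φ : Fml} (h : Pv T φ)
    (C : List Fml) : ∃ m k, Ext Γ C m k φ := by
  induction h with
  | ax h => exact ⟨_, _, Ext.ax (hT _ h)⟩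
  | log h => exact ⟨_, _, Ext.log h⟩
  | @mp φ ψ _ _ ih ih' =>
    obtain ⟨m, k, h1⟩ := ih
    obtain ⟨m', k', h2⟩ := ih'
    exact ⟨_, k + k' + lev ψ, (h1.le le_rfl (by omega)).mp (h2.le le_rfl (by omega)) (by omega)⟩
  | @gen φ x _ ih =>
    obtain ⟨m, k, h1⟩ := ih
    exact ⟨_, k + lev (Fm.all x φ), (h1.le le_rfl (by omega)).gen x (by omega)⟩

end Pool.Agent.TH636.BC
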