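import Pool.Agent.TH636.BC.Theory

/-!
# The first consequence of the axioms
-/

set_option autoImplicit false

namespace Pool.Agent.TH636.BC

open Pool.Agent.TH672

/-- if a colour `≥ y` occurs, then there is no contradiction of length at most `y` -/
def K0 (P : Fml) : Fml := .all 15 (.all 17 (.all 19 (.all 21 (.imp (nat 15) (.imp (col 17 19 21)
  (.imp (.neg (lt 21 15)) (.all 0 (.imp (.eq 0 15) (.all 3 (.imp (.eq 3 0) (con P (Ax P))))))))))))

/-- `K0` is a consequence of the axioms (statement). -/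
def K0S : Prop := ∀ (P : Fml), (∀ x, P.Free x → x = 2 ∨ x = 3 ∨ x = 4) →
  ∀ S : Str ℕ, (∀ φ ∈ Ax P, ∀ v : ℕ → S.M, Fm.Sat S φ v) → ∀ v : ℕ → S.M, Fm.Sat S (K0 P) v

end Pool.Agent.TH636.BC
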