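import Pool.Agent.TH636.BC.Theory

/-!
# The semantic consequences
-/

set_option autoImplicit false

namespace Pool.Agent.TH636.BC

open Pool.Agent.TH672

/-- schematic symbols -/
def Fs (v : ℕ) : Fml := .op 10 v v v v
/-- schematic symbols -/
def Gs (v : ℕ) : Fml := .op 11 v v v v
/-- schematic symbols -/
def Gs' (v : ℕ) : Fml := .op 12 v v v v

/-- `F` contains nodes of arbitrarily large height -/
def Lg (F : ℕ → Fml) : Fml :=
  .all 15 (.imp (nat 15) (.ex 17 (.and (F 17) (.ex 19 (.and (ht 17 19) (lt 15 19))))))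

/-- the invariant; the number is the variable `21` -/
def Iv (F : ℕ → Fml) : Fml :=
  .and (Lg F) (.all 23 (.all 25 (.imp (F 23) (.imp (ht 23 25)
    (.ex 15 (.and (nat 15) (.all 17 (.all 19 (.imp (F 17) (.imp (ht 17 19) (.imp (lt 15 19)
      (.ex 27 (.and (col 23 17 27) (.neg (lt 27 21)))))))))))))))

/-- the formulas of the chain -/
def Ph (F G : ℕ → Fml) : Fml := .all 21 (.imp (nat 21) (.imp (Iv F) (G 21)))

/-- the restriction of `F` -/
def Fr (F : ℕ → Fml) (v : ℕ) : Fml := .and (F v) (.imp (.zero 7) (col 9 v 11))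

/-- the hypothesis of the base -/
def sK : Fml := .all 15 (.all 17 (.all 19 (.all 21 (.imp (nat 15) (.imp (col 17 19 21)
  (.imp (.neg (lt 21 15)) (Gs 15)))))))

/-- the first hypothesis of the step -/
def sH : Fml := .all 7 (.all 9 (.all 11 (Ph (Fr Fs) Gs')))

/-- the second hypothesis of the step -/
def sL : Fml := .all 21 (.imp (.all 23 (.imp (.succ 21 23) (Gs' 23))) (Gs 21))

/-- the hypothesis of the end -/
def sP : Fml := Ph (fun v => .eq v v) Gs

/-- the conclusion of the end -/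
def sE : Fml := .all 15 (.imp (.zero 15) (Gs 15))

variable {S : Str ℕ}

/-- number -/
def Nt (S : Str ℕ) (x : S.M) : Prop := S.op 0 x x x x
/-- less -/
def Lt (S : Str ℕ) (x y : S.M) : Prop := S.op 1 x y y y
/-- height -/
def Ht (S : Str ℕ) (x y : S.M) : Prop := S.op 2 x y y y
/-- colour -/
def Co (S : Str ℕ) (x y c : S.M) : Prop := S.op 3 x y c c

/-- the basic axioms hold -/
structure Bas (S : Str ℕ) : Prop where
  z : ∃ x, S.zero x
  s : ∀ x, ∃ y, S.succ x y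
  sz : ∀ x y, S.succ x y → ¬ S.zero y
  zn : ∀ x, S.zero x → Nt S x
  sn : ∀ x y, Nt S x → S.succ x y → Nt S y
  lz : ∀ x y, S.zero x → ¬ Lt S y x
  ls : ∀ x y c, S.succ x y → Lt S c y → Lt S c x ∨ c = x
  mx : ∀ x y, Nt S x → Nt S y → ∃ w, Nt S w ∧ ∀ h, Lt S w h → Lt S x h ∧ Lt S y h
  hn : ∀ u h, Ht S u h → Nt S h
  un : ∀ y, Nt S y → ∃ u h, Ht S u h ∧ Lt S y h
  co : ∀ u v h h', Ht S u h → Ht S v h' → Lt S h h' → ∃ c, Co S u v c
  tr : ∀ u v w c, Co S u v c → Co S u w c → ¬ Co S v w c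

theorem bas_of {v : ℕ → S.M} (h : ∀ ψ ∈ T0, Fm.Sat S ψ v) : Bas S := by
  simp only [T0, List.mem_cons, List.not_mem_nil, or_false, forall_eq_or_imp, forall_eq] at h
  obtain ⟨h1, h2, h3, h4, h5, h6, h7, h8, h9, h10, h11, h12⟩ := h
  constructor
  · simpa [upd] using h1
  · simpa [upd] using h2
  · simpa [upd] using h3
  · simpa [upd, nat, Nt] using h4
  · simpa [upd, nat, Nt] using h5
  · intro x y hx; simpa [upd, lt, Lt, hx] using h6 x y
  · intro x y c hx hc; simpa [upd, lt, Lt, hx, hc] using h7 x y c hx hc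
  · intro x y hx hy; simpa [upd, lt, Lt, nat, Nt] using h8 x y hx hy
  · simpa [upd, ht, Ht, nat, Nt] using h9
  · intro y hy; simpa [upd, ht, Ht, lt, Lt] using h10 y hy
  · intro u w h h' a b c; simpa [upd, col, Co] using h11 u w h h' a b c
  · intro u w x c a b; simpa [upd, col, Co] using h12 u w x c a b

/-- the set contains nodes of arbitrarily large height -/
def LgS (S : Str ℕ) (F : S.M → Prop) : Prop :=
  ∀ y, Nt S y → ∃ v, F v ∧ ∃ h, Ht S v h ∧ Lt S y h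

/-- the invariant -/
def IvS (S : Str ℕ) (F : S.M → Prop) (z : S.M) : Prop :=
  LgS S F ∧ ∀ u h, F u → Ht S u h → ∃ y, Nt S y ∧ ∀ v h', F v → Ht S v h' → Lt S y h' →
    ∃ c, Co S u v c ∧ ¬ Lt S c z

theorem step_sem (b : Bas S) {F : S.M → Prop} {z z' : S.M} (hz : S.succ z z') (h : IvS S F z)
    (hnz : Nt S z) : ∃ a u c, IvS S (fun v => F v ∧ (S.zero a → Co S u v c)) z' := by
  by_cases hc : ∃ u, F u ∧ LgS S (fun v => F v ∧ Co S u v z)
  · obtain ⟨u, hu, hL⟩ := hc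
    obtain ⟨a, ha⟩ := b.z
    refine ⟨a, u, z, ?_, ?_⟩
    · intro y hy
      obtain ⟨v, ⟨h1, h2⟩, h3⟩ := hL y hy
      exact ⟨v, ⟨h1, fun _ => h2⟩, h3⟩
    · rintro u' hh ⟨h1, h2⟩ h3
      obtain ⟨y, hy, hv⟩ := h.2 u' hh h1 h3
      refine ⟨y, hy, ?_⟩
      rintro v h' ⟨h4, h5⟩ h6 h7
      obtain ⟨c, hc1, hc2⟩ := hv v h' h4 h6 h7
      refine ⟨c, hc1, fun hlt => ?_⟩
      rcases b.ls _ _ _ hz hlt with h8 | rfl
      · exact hc2 h8
      · exact b.tr u u' v c (h2 ha) (h5 ha) hc1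
  · have hc' : ∀ u, F u → ¬ LgS S (fun v => F v ∧ Co S u v z) := fun u hu hL => hc ⟨u, hu, hL⟩
    refine ⟨z', z, z, ?_, ?_⟩
    · intro y hy
      obtain ⟨v, h1, h3⟩ := h.1 y hy
      exact ⟨v, ⟨h1, fun h4 => absurd h4 (b.sz _ _ hz)⟩, h3⟩
    · rintro u hh ⟨h1, _⟩ h3
      obtain ⟨y, hy, hv⟩ := h.2 u hh h1 h3
      have h4 := hc' u h1
      simp only [LgS, not_forall] at h4
      obtain ⟨y2, hy2, h5⟩ := h4
      obtain ⟨w, hw, hw'⟩ := b.mx y y2 hy hy2
      refine ⟨w, hw, ?_⟩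
      rintro v h' ⟨h6, _⟩ h7 h8
      obtain ⟨h9, h10⟩ := hw' _ h8
      obtain ⟨c, hc1, hc2⟩ := hv v h' h6 h7 h9
      refine ⟨c, hc1, fun hlt => ?_⟩
      rcases b.ls _ _ _ hz hlt with h11 | rfl
      · exact hc2 h11
      · exact h5 ⟨v, ⟨h6, hc1⟩, h', h7, h10⟩

theorem base_sem {F : S.M → Prop} {z : S.M} (hn : Nt S z) (h : IvS S F z) :
    ∃ u v c, Co S u v c ∧ ¬ Lt S c z := by
  obtain ⟨u, h1, hh, h2, _⟩ := h.1 z hn
  obtain ⟨y, hy, h3⟩ := h.2 u hh h1 h2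
  obtain ⟨v, h4, h', h5, h6⟩ := h.1 y hy
  obtain ⟨c, h7, h8⟩ := h3 v h' h4 h5 h6
  exact ⟨u, v, c, h7, h8⟩

theorem end_sem (b : Bas S) {z : S.M} (hz : S.zero z) : IvS S (fun _ => True) z := by
  refine ⟨?_, ?_⟩
  · intro y hy
    obtain ⟨u, h, h1⟩ := b.un y hy
    exact ⟨u, trivial, h, h1⟩
  · rintro u h - h1
    refine ⟨h, b.hn _ _ h1, ?_⟩
    rintro v h' - h2 h3
    obtain ⟨c, hc⟩ := b.co _ _ _ _ h1 h2 h3
    exact ⟨c, hc, b.lz _ _ hz⟩

theorem sat_Iv {F : ℕ → Fml} {v : ℕ → S.M} (G : S.M → Prop)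
    (hF : ∀ w : ℕ → S.M, (∀ x, x < 13 → w x = v x) → ∀ x, 15 ≤ x → (Fm.Sat S (F x) w ↔ G (w x))) :
    Fm.Sat S (Iv F) v ↔ IvS S G (v 21) := by
  have h1 : ∀ (w : ℕ → S.M) (x : ℕ) (a : S.M), 13 ≤ x → (∀ x, x < 13 → w x = v x) →
      ∀ y, y < 13 → upd w x a y = v y := by
    intro w x a hx hw y hy
    rw [upd_ne _ _ (by omega)]
    exact hw y hy
  have h0 : ∀ x, x < 13 → v x = v x := fun _ _ => rfl
  simp only [Iv, Lg, Fm.sat_and, Fm.sat_all, Fm.sat_imp, Fm.sat_ex, Fm.sat_neg]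
  refine and_congr ?_ ?_
  · simp only [LgS]
    refine forall_congr' fun y => imp_congr ?_ (exists_congr fun u => and_congr ?_ ?_)
    · simp [nat, Nt]
    · rw [hF _ (h1 _ _ _ (by norm_num) (h1 _ _ _ (by norm_num) h0)) _ (by norm_num)]
      simp
    · simp [upd, ht, lt, Ht, Lt]
  · refine forall_congr' fun u => forall_congr' fun h => imp_congr ?_ (imp_congr ?_
      (exists_congr fun y => and_congr ?_ (forall_congr' fun w => forall_congr' fun h' =>
        imp_congr ?_ (imp_congr ?_ (imp_congr ?_ (exists_congr fun c => ?_))))))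
    · rw [hF _ (h1 _ _ _ (by norm_num) (h1 _ _ _ (by norm_num) h0)) _ (by norm_num)]
      simp [upd]
    · simp [upd, ht, Ht]
    · simp [upd, nat, Nt]
    · rw [hF _ (h1 _ _ _ (by norm_num) (h1 _ _ _ (by norm_num) (h1 _ _ _ (by norm_num)
        (h1 _ _ _ (by norm_num) (h1 _ _ _ (by norm_num) h0))))) _ (by norm_num)]
      simp [upd]
    · simp [upd, ht, Ht]
    · simp [upd, lt, Lt]
    · simp [upd, col, lt, Co, Lt]

theorem semBase (S : Str ℕ) (v : ℕ → S.M) (h : ∀ ψ ∈ sK :: T0, Fm.Sat S ψ v) :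
    Fm.Sat S (Ph Fs Gs) v := by
  have hK := h sK (by simp)
  simp only [Ph, Fm.sat_all, Fm.sat_imp]
  intro z hz hI
  rw [sat_Iv (fun x => S.op 10 x x x x) (fun w _ x _ => Iff.rfl)] at hI
  simp only [upd_same] at hI
  have hz' : Nt S z := by simpa [nat, Nt] using hz
  obtain ⟨u, w, c, h1, h2⟩ := base_sem hz' hI
  have h3 := hK z u w c
  simp [upd, nat, col, lt, Gs] at h3 ⊢
  exact h3 hz' h1 h2

theorem semStep (S : Str ℕ) (v : ℕ → S.M) (h : ∀ ψ ∈ sH :: sL :: T0, Fm.Sat S ψ v) :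
    Fm.Sat S (Ph Fs Gs) v := by
  have hH := h sH (by simp)
  have hL := h sL (by simp)
  have b : Bas S := bas_of fun ψ hψ => h ψ (List.mem_cons_of_mem _ (List.mem_cons_of_mem _ hψ))
  simp only [Ph, Fm.sat_all, Fm.sat_imp]
  intro z hz hI
  rw [sat_Iv (fun x => S.op 10 x x x x) (fun w _ x _ => Iff.rfl)] at hI
  simp only [upd_same] at hI
  have hz' : Nt S z := by simpa [nat, Nt] using hz
  have h1 := hL z
  simp only [Fm.sat_all, Fm.sat_imp] at h1
  refine h1 fun z' hzz => ?_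
  have hzz' : S.succ z z' := by simpa [upd] using hzz
  obtain ⟨a, u, c, hI'⟩ := step_sem b hzz' hI hz'
  have h2 := hH a u c z'
  simp only [Fm.sat_imp] at h2
  have h3 := h2 (by simpa [nat, Nt] using b.sn _ _ hz' hzz')
  rw [sat_Iv (fun x => S.op 10 x x x x ∧ (S.zero a → Co S u x c)) (fun w hw x hx => ?_)] at h3
  · have h4 := h3 (by simpa using hI')
    simpa [upd, Gs'] using h4
  · have e7 : w 7 = a := by rw [hw 7 (by norm_num)]; simp [upd]
    have e9 : w 9 = u := by rw [hw 9 (by norm_num)]; simp [upd]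
    have e11 : w 11 = c := by rw [hw 11 (by norm_num)]; simp [upd]
    simp [Fr, Fs, col, Co, e7, e9, e11]

theorem semEnd (S : Str ℕ) (v : ℕ → S.M) (h : ∀ ψ ∈ sP :: T0, Fm.Sat S ψ v) :
    Fm.Sat S sE v := by
  have hP := h sP (by simp)
  have b : Bas S := bas_of fun ψ hψ => h ψ (List.mem_cons_of_mem _ hψ)
  simp only [sE, Fm.sat_all, Fm.sat_imp]
  intro z hz
  have hz' : S.zero z := by simpa using hz
  have h1 := hP z
  simp only [Fm.sat_imp] at h1
  have h2 := h1 (by simpa [nat, Nt] using b.zn _ hz')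
  rw [sat_Iv (fun _ => True) (fun w hw x hx => by simp)] at h2
  have h3 := h2 (by simpa using end_sem b hz')
  simpa [upd, Gs] using h3

end Pool.Agent.TH636.BC
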