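import Pool.Agent.TH636.BC.Tr
import Pool.Agent.TH636.BC.Sem
import Pool.Agent.TH636.BC.K0

/-!
# The families of formulas in the chain
-/

set_option autoImplicit false

namespace Pool.Agent.TH636.BC

open Pool.Agent.TH672

variable {J : Type} {Γ C : J → List Fml} {N : J → ℕ}

/-! ### Rules for natural deduction -/

theorem nd_symm {Δ : List (J → Fml)} {x y : J → ℕ} (hx : LB N x) (hy : LB N y)
    (h : ND Γ C N Δ (fun j => Fm.eq (x j) (y j))) : ND Γ C N Δ (fun j => Fm.eq (y j) (x j)) := by
  have h1 : ND Γ C N Δ (fun j => (Fm.eq (x j) (y j)).imp ((Fm.eq (x j) (x j)).imp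
      (Fm.eq (y j) (x j)))) :=
    ND.log h.1 ((ub_eq hx hy).imp ((ub_eq hx hx).imp (ub_eq hy hx)))
      fun j => LogK.repl _ _ _ _ (.eq (Or.inr ⟨rfl, rfl⟩) (Or.inl rfl))
  have h2 : ND Γ C N Δ (fun j => Fm.eq (x j) (x j)) :=
    ND.log h.1 (ub_eq hx hx) fun j => LogK.refl _
  exact (h1.mp h).mp h2

theorem nd_trans {Δ : List (J → Fml)} {x y z : J → ℕ} (hx : LB N x) (hy : LB N y) (hz : LB N z)
    (h : ND Γ C N Δ (fun j => Fm.eq (x j) (y j))) (h' : ND Γ C N Δ (fun j => Fm.eq (y j) (z j))) :
    ND Γ C N Δ (fun j => Fm.eq (x j) (z j)) := by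
  have h1 : ND Γ C N Δ (fun j => (Fm.eq (y j) (z j)).imp ((Fm.eq (x j) (y j)).imp
      (Fm.eq (x j) (z j)))) :=
    ND.log h.1 ((ub_eq hy hz).imp ((ub_eq hx hy).imp (ub_eq hx hz)))
      fun j => LogK.repl _ _ _ _ (.eq (Or.inl rfl) (Or.inr ⟨rfl, rfl⟩))
  exact (h1.mp h').mp h

theorem nd_inst {Δ : List (J → Fml)} {F : J → Fml} {x : J → ℕ} (y : J → ℕ)
    (hf : ∀ j, (F j).FreeFor (y j) (x j)) (hb : UB N (fun j => (F j).subst (x j) (y j)))
    (h : ND Γ C N Δ (fun j => Fm.all (x j) (F j))) :
    ND Γ C N Δ (fun j => (F j).subst (x j) (y j)) :=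
  (ND.log h.1 (h.2.1.imp hb) fun j => LogK.inst (x j) (y j) _ (hf j)).mp h

theorem nd_inst_self {Δ : List (J → Fml)} {F : J → Fml} {x : J → ℕ}
    (h : ND Γ C N Δ (fun j => Fm.all (x j) (F j))) : ND Γ C N Δ F := by
  have h1 := nd_inst (Γ := Γ) (C := C) (N := N) (Δ := Δ) (F := F) (x := x) x
    (fun j => fm_freeFor_self _ _) (by simpa only [fm_subst_self] using h.2.1.of_all) h
  simpa only [fm_subst_self] using h1

theorem lb_const (x : ℕ) : LB N (fun _ : J => x) := UB.bd_const x

/-! ### The families -/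

/-- the parameters -/
def pr (k : ℕ) : ℕ := 6 + 2 * k

/-- the sets of the chain -/
def QF : ℕ → ℕ → Fml
  | 0, v => .eq v v
  | j + 1, v => .and (QF j v)
      (.imp (.zero (pr (3 * j))) (col (pr (3 * j + 1)) v (pr (3 * j + 2))))

/-- the conclusions -/
def QG (D : Fml) (i v : ℕ) : Fml := .all 0 (.imp (.eq 0 v) (blk^[i] D))

/-- there is no contradiction of length at most `v₀` -/
def DD (P : Fml) : Fml := .all 3 (.imp (.eq 3 0) (con P (Ax P)))

theorem rk_QF (j v : ℕ) : ∀ s, rk (QF j v) s = 0 := by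
  induction j with
  | zero => intro s; simp [QF, rk]
  | succ j ih => intro s; simp [QF, Fm.and, Fm.neg, rk, col, ih]

theorem len_QF (j v : ℕ) : len (QF j v) ≤ (j + 1) * (75 + 24 * j + 2 * v) := by
  induction j with
  | zero => simp [QF, len, str, varStr]; omega
  | succ j ih =>
    have h : len (QF (j + 1) v) = len (QF j v) + (75 + 24 * j + v) := by
      simp only [QF, Fm.and, Fm.neg, len_imp, col]
      simp [len, str, varStr, pr]
      omega
    rw [h]
    nlinarith

theorem rk_blk (D : Fml) (i : ℕ) : rk (blk^[i] D) false ≤ max 1 (rk D false) := by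
  induction i with
  | zero => exact le_max_right _ _
  | succ i ih =>
    rw [Function.iterate_succ_apply']
    simp only [blk, rk, Bool.false_eq_true, if_false, Nat.add_zero]
    omega

theorem len_blk (D : Fml) (i : ℕ) : len (blk^[i] D) = len D + 33 * i := by
  induction i with
  | zero => rfl
  | succ i ih =>
    rw [Function.iterate_succ_apply']
    simp only [blk, len_imp, len_all, ih]
    simp [len, str, varStr]
    omega

theorem len_QG (D : Fml) (i v : ℕ) : len (QG D i v) = len D + 33 * i + v + 15 := by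
  simp only [QG, len_imp, len_all, len_blk]
  simp [len, str, varStr]
  omega

theorem lev_QG (D : Fml) (i v : ℕ) : lev (QG D i v) ≤ rk D false + 2 := by
  have h := rk_blk D i
  simp only [QG, lev, rk, if_true]
  omega

theorem free_blk {D : Fml} (hD : ∀ x, D.Free x → x = 0) : ∀ i x, (blk^[i] D).Free x → x = 0 := by
  intro i
  induction i with
  | zero => exact hD
  | succ i ih =>
    intro x h
    rw [Function.iterate_succ_apply'] at h
    simp only [blk, Fm.Free] at h
    rcases h with ⟨h1, (h | h) | ⟨h2, (h | h) | h⟩⟩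
    · exact h
    · exact absurd h h1
    · exact absurd h h2
    · exact absurd h h1
    · exact ih x h

/-- the admissible variables -/
def Ij (j x : ℕ) : Prop := okv x ∨ (x % 2 = 0 ∧ 6 + 6 * j ≤ x)

theorem Ij.ge {j x : ℕ} (h : Ij j x) : 6 ≤ x := by
  simp only [Ij, okv] at h; omega

theorem Ij.succ {j x : ℕ} (h : Ij (j + 1) x) : Ij j x := by
  simp only [Ij, okv] at h ⊢; omega

theorem Ij.ne {j x k : ℕ} (h : Ij j x) (hk : k < 3 * j) : x ≠ pr k := by
  simp only [Ij, okv, pr] at h ⊢; omega

theorem fm_freeFor_of_not_free {x : ℕ} (y : ℕ) : ∀ {φ : Fml}, ¬ φ.Free x → φ.FreeFor y x := by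
  intro φ
  induction φ with
  | imp φ ψ ih ih' =>
    intro h; simp only [Fm.Free, not_or] at h
    exact ⟨ih h.1, ih' h.2⟩
  | all u φ ih =>
    intro h
    simp only [Fm.Free, not_and] at h
    unfold Fm.FreeFor
    by_cases hu : u = x
    · exact Or.inl hu
    · exact Or.inr (Or.inl (h (fun e => hu e.symm)))
  | _ => intro _; trivial

theorem ren_ne' {x y u : ℕ} (h : u ≠ x) : Form.ren x y u = u := by
  unfold Form.ren; rw [if_neg h]

theorem fam_QF (j : ℕ) : Fam (Ij j) (QF j) := by
  have hs : ∀ j, ∀ v x y, Ij j x → (QF j v).subst x y = QF j (Form.ren x y v) := by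
    intro j
    induction j with
    | zero => intro v x y _; rfl
    | succ j ih =>
      intro v x y hx
      have e1 := ren_ne' (y := y) (hx.ne (k := 3 * j) (by omega)).symm
      have e2 := ren_ne' (y := y) (hx.ne (k := 3 * j + 1) (by omega)).symm
      have e3 := ren_ne' (y := y) (hx.ne (k := 3 * j + 2) (by omega)).symm
      simp only [QF, Fm.and, Fm.neg, Fm.subst, col, ih v x y hx.succ, e1, e2, e3]
  have hf : ∀ j, ∀ v x, Ij j x → (QF j v).Free x → x = v := by
    intro j
    induction j with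
    | zero =>
      intro v x _ h
      rcases h with h | h <;> exact h
    | succ j ih =>
      intro v x hx h
      have e1 := hx.ne (k := 3 * j) (by omega)
      have e2 := hx.ne (k := 3 * j + 1) (by omega)
      have e3 := hx.ne (k := 3 * j + 2) (by omega)
      simp only [QF, Fm.and, Fm.neg, Fm.Free, col, or_false, e1, e2, e3, false_or] at h
      rcases h with h | h
      · exact ih v x hx.succ h
      · exact h
  have hh : ∀ j, ∀ v x y, (QF j v).FreeFor y x := by
    intro j
    induction j with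
    | zero => intro v x y; trivial
    | succ j ih =>
      intro v x y
      simp only [QF, Fm.and, Fm.neg, Fm.FreeFor, col, and_true]
      exact ih v x y
  exact ⟨fun v x y _ hx _ => hs j v x y hx, fun v x _ hx h => hf j v x hx h,
    fun v x y _ _ _ => hh j v x y⟩

theorem fam_QG {D : Fml} (hD : ∀ x, D.Free x → x = 0) (i j : ℕ) : Fam (Ij j) (QG D i) := by
  have hn : ∀ x, Ij j x → ¬ (blk^[i] D).Free x := fun x hx h => by
    have := free_blk hD i x h
    have := hx.ge
    omega
  refine ⟨fun v x y _ hx _ => ?_, fun v x _ hx h => ?_, fun v x y _ hx hy => ?_⟩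
  · have h0 : (0 : ℕ) ≠ x := by have := hx.ge; omega
    simp only [QG, Fm.subst, if_neg h0, ren_ne' h0,
      Pool.Agent.TH690.J100.subst_of_not_free (hn x hx)]
  · simp only [QG, Fm.Free] at h
    rcases h with ⟨h1, (h | h) | h⟩
    · exact absurd h h1
    · exact h
    · exact absurd h (hn x hx)
  · have h0 : (0 : ℕ) ≠ y := by have := hy.ge; omega
    refine Or.inr (Or.inr ⟨h0, trivial, ?_⟩)
    exact fm_freeFor_of_not_free y (hn x hx)

end Pool.Agent.TH636.BC
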