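import Pool.Agent.TH636.BC.Chain

/-!
# Proofs of polynomial length and bounded quantifier complexity
-/

set_option autoImplicit false

namespace Pool.Agent.TH636.BC

open Pool.Agent.TH672

variable {J : Type} {Γ C : J → List Fml} {N : J → ℕ}

theorem T0_sub (P : Fml) : ∀ ψ ∈ T0, ψ ∈ Ax P := by
  intro ψ h
  exact List.mem_cons_of_mem _ (List.mem_append_left _ (List.mem_append_right _ h))

theorem ud_T0 (P D : Fml) (jj aa bb : J → ℕ) : ∀ ψ ∈ T0, UD (fun _ => Ax P) C N
    (fun t => trf (fj (jj t)) (Qj D (jj t) (aa t) (bb t)) ψ) := by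
  intro ψ hψ
  have h : (fun t => trf (fj (jj t)) (Qj D (jj t) (aa t) (bb t)) ψ) = fun _ => ψ := by
    funext t
    exact trf_T0 D _ _ _ ψ hψ
  rw [h]
  exact UD.ax (UB.const _) fun _ => T0_sub P ψ hψ

theorem free_DD {P : Fml} (hc : ∀ x, (con P (Ax P)).Free x → x = 3) :
    ∀ x, (DD P).Free x → x = 0 := by
  intro x h
  simp only [DD, Fm.Free] at h
  rcases h with ⟨h1, (h | h) | h⟩
  · exact absurd h h1
  · exact h
  · exact absurd (hc x h) h1

section main

variable {P : Fml} (hc : ∀ x, (con P (Ax P)).Free x → x = 3)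
  (hk : Pv (fun ψ => ψ ∈ Ax P) (K0 P))

include hc hk

theorem chain_base : UD (fun _ : ℕ => Ax P) (fun _ => []) (fun n => (n + 1) ^ 3)
    (fun n => Ph (QF n) (QG (DD P) 0)) := by
  have u := uni_j (J := ℕ) (Γ := fun _ => Ax P) (C := fun _ => []) (N := fun n => (n + 1) ^ 3)
    (free_DD hc) (jj := fun n => n) (aa := fun _ => 0) (bb := fun _ => 0)
    (fun t => Nat.le_succ _) (fun t => Nat.zero_le _) (fun t => Nat.zero_le _)
  have h := ud_step u (sK :: T0) (Ph Fs Gs) ?_ (ok_s _ (by simp)).1 (ok_s _ (by simp)).2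
    semBase ?_
  · simpa only [trf_Ph] using h
  · intro ψ hψ
    rcases List.mem_cons.1 hψ with rfl | hψ
    · exact ok_s _ (by simp)
    · exact ok_T0 ψ hψ
  · intro ψ hψ
    rcases List.mem_cons.1 hψ with rfl | hψ
    · simp only [trf_sK]
      obtain ⟨m, k, h⟩ := pv_ext (Γ := Ax P) (fun φ hφ => hφ) hk []
      refine ⟨UB.const _, m + k, fun j => h.le ?_ (by omega)⟩
      exact (Nat.le_add_right m k).trans (Nat.le_mul_of_pos_right _ (by omega))
    · exact ud_T0 P (DD P) (fun n => n) (fun _ => 0) (fun _ => 0) ψ hψ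

omit hk in
theorem ud_sL {i : J → ℕ} (hi : LB N i) : UD Γ C N (fun t =>
    Fm.all 21 (.imp (.all 23 (.imp (.succ 21 23) (QG (DD P) (i t) 23)))
      (QG (DD P) (i t + 1) 21))) := by
  have hD := free_DD hc
  have hB : ∀ t x, (blk^[i t] (DD P)).Free x → x = 0 := fun t x => free_blk hD (i t) x
  have e : ∀ t, QG (DD P) (i t + 1) 21 = Fm.all 0 (.imp (.eq 0 21) (.all 1 (.imp (.succ 0 1)
      (QG (DD P) (i t) 1)))) := by
    intro t
    simp only [QG, Function.iterate_succ_apply', blk]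
  simp only [e]
  have ubH : UB N (fun t => Fm.all 23 (.imp (.succ 21 23) (QG (DD P) (i t) 23))) :=
    ((UB.const _).imp (ub_QG hi (lb_const 23))).all' 23
  have fQ : ∀ t (v x : ℕ), (QG (DD P) (i t) v).Free x → x = v := by
    intro t v x h
    simp only [QG, Fm.Free] at h
    rcases h with ⟨h1, (h | h) | h⟩
    · exact absurd h h1
    · exact h
    · exact absurd (hB t x h) h1
  apply ND.ud
  refine ND.gen' 21 (by simp) (ND.intro (ND.gen' 0 ?_ (ND.intro (ND.gen' 1 ?_ (ND.intro ?_)))))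
  · intro G hG t
    simp only [List.mem_cons, List.not_mem_nil, or_false] at hG
    subst hG
    simp only [Fm.Free]
    rintro ⟨_, (h | h) | h⟩
    · omega
    · omega
    · have := fQ t _ _ h; omega
  · intro G hG t
    simp only [List.mem_cons, List.not_mem_nil, or_false] at hG
    rcases hG with rfl | rfl
    · simp [Fm.Free]
    · simp only [Fm.Free]
      rintro ⟨_, (h | h) | h⟩
      · omega
      · omega
      · have := fQ t _ _ h; omega
  · set Δ : List (J → Fml) := [fun _ => Fm.succ 0 1, fun _ => Fm.eq 0 21,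
      fun t => Fm.all 23 (.imp (.succ 21 23) (QG (DD P) (i t) 23))] with hΔ
    have hU : ∀ G ∈ Δ, UB N G := by
      intro G hG
      simp only [hΔ, List.mem_cons, List.not_mem_nil, or_false] at hG
      rcases hG with rfl | rfl | rfl
      · exact UB.const _
      · exact UB.const _
      · exact ubH
    have h1 : ND Γ C N Δ (fun _ => Fm.succ 0 1) := ND.hyp hU (by simp [hΔ])
    have h2 : ND Γ C N Δ (fun _ => Fm.eq 0 21) := ND.hyp hU (by simp [hΔ])
    have h3 : ND Γ C N Δ (fun t => Fm.all 23 (.imp (.succ 21 23) (QG (DD P) (i t) 23))) :=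
      ND.hyp hU (by simp [hΔ])
    have h4 : ND Γ C N Δ (fun _ => (Fm.eq 0 21).imp ((Fm.succ 0 1).imp (Fm.succ 21 1))) :=
      ND.log hU (UB.const _) fun _ =>
        LogK.repl _ _ _ _ (.succ (Or.inr ⟨rfl, rfl⟩) (Or.inl rfl))
    have h5 := (h4.mp h2).mp h1
    have es : ∀ t, (Fm.imp (.succ 21 23) (QG (DD P) (i t) 23)).subst 23 1 =
        (Fm.succ 21 1).imp (QG (DD P) (i t) 1) := by
      intro t
      have : ¬ (blk^[i t] (DD P)).Free 23 := fun h => by have := hB t _ h; omega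
      simp [QG, Fm.subst, Form.ren, Pool.Agent.TH690.J100.subst_of_not_free this]
    have ff : ∀ t, (Fm.imp (.succ 21 23) (QG (DD P) (i t) 23)).FreeFor 1 23 := by
      intro t
      have : ¬ (blk^[i t] (DD P)).Free 23 := fun h => by have := hB t _ h; omega
      exact ⟨trivial, Or.inr (Or.inr ⟨by omega, trivial, fm_freeFor_of_not_free 1 this⟩)⟩
    have h6 := nd_inst (x := fun _ => 23) (fun _ => 1) ff (by
      simp only [es]
      exact (UB.const _).imp (ub_QG hi (lb_const 1))) h3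
    simp only [es] at h6
    exact h6.mp h5

omit hk in
theorem chain_step : UD (fun _ : ℕ × ℕ => Ax P)
    (fun t => [Fm.all (pr (3 * t.1)) (.all (pr (3 * t.1 + 1)) (.all (pr (3 * t.1 + 2))
      (Ph (QF (t.1 + 1)) (QG (DD P) t.2))))])
    (fun t => (t.1 + t.2 + 1) ^ 3)
    (fun t => Ph (QF t.1) (QG (DD P) (t.2 + 1))) := by
  have cub : ∀ t : ℕ × ℕ, t.1 + t.2 + 1 ≤ (t.1 + t.2 + 1) ^ 3 :=
    fun t => Nat.le_self_pow (by norm_num) _
  set C : ℕ × ℕ → List Fml := fun t => [Fm.all (pr (3 * t.1)) (.all (pr (3 * t.1 + 1))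
    (.all (pr (3 * t.1 + 2)) (Ph (QF (t.1 + 1)) (QG (DD P) t.2))))] with hC
  have u := uni_j (J := ℕ × ℕ) (Γ := fun _ => Ax P) (C := C)
    (N := fun t => (t.1 + t.2 + 1) ^ 3) (free_DD hc) (jj := fun t => t.1)
    (aa := fun t => t.2 + 1) (bb := fun t => t.2)
    (fun t => (Nat.pow_le_pow_left (by omega) 3).trans (Nat.le_succ _))
    (fun t => by have := cub t; omega) (fun t => by have := cub t; omega)
  have ubb : LB (fun t : ℕ × ℕ => (t.1 + t.2 + 1) ^ 3) (fun t => t.2) :=
    ⟨1, fun t => by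
      have := cub t
      show t.2 ≤ 1 * ((t.1 + t.2 + 1) ^ 3 + 1)
      omega⟩
  have h := ud_step u (sH :: sL :: T0) (Ph Fs Gs) ?_ (ok_s _ (by simp)).1 (ok_s _ (by simp)).2
    semStep ?_
  · simpa only [trf_Ph] using h
  · intro ψ hψ
    rcases List.mem_cons.1 hψ with rfl | hψ
    · exact ok_s _ (by simp)
    · rcases List.mem_cons.1 hψ with rfl | hψ
      · exact ok_s _ (by simp)
      · exact ok_T0 ψ hψ
  · intro ψ hψ
    rcases List.mem_cons.1 hψ with rfl | hψ
    · refine UD.hyp (ub_trf u (ok_s _ (by simp)).2) fun t => ?_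
      simp only [trf_sH, hC, List.mem_cons, List.not_mem_nil, or_false]
    · rcases List.mem_cons.1 hψ with rfl | hψ
      · simp only [trf_sL]
        exact ud_sL hc ubb
      · exact ud_T0 P (DD P) (fun t : ℕ × ℕ => t.1) (fun t => t.2 + 1) (fun t => t.2) ψ hψ

omit hk in
theorem chain_end : UD (fun _ : ℕ => Ax P) (fun n => [Ph (QF 0) (QG (DD P) n)])
    (fun n => (n + 1) ^ 3) (fun n => conAt P (Ax P) n) := by
  have cub : ∀ t : ℕ, t + 1 ≤ (t + 1) ^ 3 := fun t => Nat.le_self_pow (by norm_num) _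
  set C : ℕ → List Fml := fun n => [Ph (QF 0) (QG (DD P) n)] with hC
  have u := uni_j (J := ℕ) (Γ := fun _ => Ax P) (C := C) (N := fun n => (n + 1) ^ 3)
    (free_DD hc) (jj := fun _ => 0) (aa := fun n => n) (bb := fun _ => 0)
    (fun t => by have := cub t; norm_num) (fun t => by have := cub t; omega)
    (fun t => Nat.zero_le _)
  have ubn : LB (fun n : ℕ => (n + 1) ^ 3) (fun n => n) := ⟨1, fun t => by
    have := cub t
    show t ≤ 1 * ((t + 1) ^ 3 + 1)
    omega⟩
  have h := ud_step u (sP :: T0) sE ?_ (ok_s _ (by simp)).1 (ok_s _ (by simp)).2 semEnd ?_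
  · simp only [trf_sE] at h
    have hD := free_DD hc
    have hB : ∀ n x, (blk^[n] (DD P)).Free x → x = 0 := fun n x => free_blk hD n x
    have ubB : UB (fun n : ℕ => (n + 1) ^ 3) (fun n => blk^[n] (DD P)) := ub_blk ubn
    -- remove the quantifiers
    have h1 : ND (fun _ : ℕ => Ax P) C (fun n => (n + 1) ^ 3) [fun _ => Fm.zero 15]
        (fun n => (Fm.eq 0 15).imp (blk^[n] (DD P))) := by
      have hU : ∀ G ∈ [(fun _ : ℕ => (Fm.zero 15 : Fml))], UB (fun n : ℕ => (n + 1) ^ 3) G := by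
        intro G hG
        simp only [List.mem_cons, List.not_mem_nil, or_false] at hG
        subst hG
        exact UB.const _
      have h2 := ND.of h hU
      have h3 := nd_inst_self (x := fun _ => 15) h2
      exact nd_inst_self (x := fun _ => 0) (h3.mp (ND.hyp hU (by simp)))
    have h2 := ND.gen' 15 (by simp) (ND.intro h1)
    have es : ∀ n : ℕ, (Fm.imp (.zero 15) ((Fm.eq 0 15).imp (blk^[n] (DD P)))).subst 15 0 =
        (Fm.zero 0).imp ((Fm.eq 0 0).imp (blk^[n] (DD P))) := by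
      intro n
      have : ¬ (blk^[n] (DD P)).Free 15 := fun h => by have := hB n _ h; omega
      simp [Fm.subst, Form.ren, Pool.Agent.TH690.J100.subst_of_not_free this]
    have ff : ∀ n : ℕ, (Fm.imp (.zero 15) ((Fm.eq 0 15).imp (blk^[n] (DD P)))).FreeFor 0 15 := by
      intro n
      have : ¬ (blk^[n] (DD P)).Free 15 := fun h => by have := hB n _ h; omega
      exact ⟨trivial, trivial, fm_freeFor_of_not_free 0 this⟩
    have h3 := nd_inst (x := fun _ => 15) (fun _ => 0) ff (by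
      simp only [es]
      exact (UB.const _).imp ((UB.const _).imp ubB)) h2
    simp only [es] at h3
    have h4 : ND (fun _ : ℕ => Ax P) C (fun n => (n + 1) ^ 3) [fun _ => Fm.zero 0]
        (fun n => blk^[n] (DD P)) := by
      have hU : ∀ G ∈ [(fun _ : ℕ => (Fm.zero 0 : Fml))], UB (fun n : ℕ => (n + 1) ^ 3) G := by
        intro G hG
        simp only [List.mem_cons, List.not_mem_nil, or_false] at hG
        subst hG
        exact UB.const _
      have h5 := ND.of h3.ud hU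
      exact (h5.mp (ND.hyp hU (by simp))).mp (ND.log hU (UB.const _) fun _ => LogK.refl _)
    have h5 := ND.gen' 0 (by simp) (ND.intro h4)
    exact h5.ud
  · intro ψ hψ
    rcases List.mem_cons.1 hψ with rfl | hψ
    · exact ok_s _ (by simp)
    · exact ok_T0 ψ hψ
  · intro ψ hψ
    rcases List.mem_cons.1 hψ with rfl | hψ
    · refine UD.hyp (ub_trf u (ok_s _ (by simp)).2) fun t => ?_
      simp only [trf_sP, hC, List.mem_cons, List.not_mem_nil, or_false]
    · exact ud_T0 P (DD P) (fun _ => 0) (fun n => n) (fun _ => 0) ψ hψ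

/-- The chain. -/
theorem chain_all : ∃ K, ∀ i j : ℕ, Ext (Ax P) [] (K * ((i + 1) * ((j + i + 1) ^ 3 + 1))) K
    (Ph (QF j) (QG (DD P) i)) := by
  obtain ⟨⟨U, hU⟩, K1, hK1⟩ := chain_base hc hk
  obtain ⟨⟨V, hV⟩, K2, hK2⟩ := chain_step hc
  -- bound for the formulas of the chain
  obtain ⟨W, hW⟩ : UB (fun t : ℕ × ℕ => (t.1 + t.2 + 1) ^ 3)
      (fun t => Ph (QF (t.1 + 1)) (QG (DD P) t.2)) := by
    have cub : ∀ t : ℕ × ℕ, t.1 + t.2 + 1 ≤ (t.1 + t.2 + 1) ^ 3 :=
      fun t => Nat.le_self_pow (by norm_num) _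
    have u := uni_j (J := ℕ × ℕ) (Γ := fun _ => Ax P) (C := fun _ => [])
      (N := fun t => 8 * (t.1 + t.2 + 1) ^ 3) (free_DD hc) (jj := fun t => t.1 + 1)
      (aa := fun t => t.2) (bb := fun t => t.2)
      (fun t => by
        have h1 : (t.1 + 1 + 1) ^ 3 ≤ (2 * (t.1 + t.2 + 1)) ^ 3 :=
          Nat.pow_le_pow_left (by omega) 3
        have h2 : (2 * (t.1 + t.2 + 1)) ^ 3 = 8 * (t.1 + t.2 + 1) ^ 3 := by ring
        omega)
      (fun t => by have := cub t; omega) (fun t => by have := cub t; omega)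
    have h := ub_trf u (φ := Ph Fs Gs) (ok_s _ (by simp)).2
    simp only [trf_Ph] at h
    obtain ⟨W, hW⟩ := h
    refine ⟨8 * W, fun t => ⟨(hW t).1.trans ?_, (hW t).2.trans (by omega)⟩⟩
    have : W * (8 * (t.1 + t.2 + 1) ^ 3 + 1) ≤ W * (8 * ((t.1 + t.2 + 1) ^ 3 + 1)) :=
      Nat.mul_le_mul_left _ (by omega)
    calc _ ≤ _ := this
      _ = _ := by ring
  refine ⟨K1 + K2 + 3 * W + 100, fun i => ?_⟩
  induction i with
  | zero =>
    intro j
    refine (hK1 j).le ?_ (by omega)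
    have h1 : K1 * ((j + 1) ^ 3 + 1) ≤ (K1 + K2 + 3 * W + 100) * ((j + 1) ^ 3 + 1) :=
      Nat.mul_le_mul_right _ (by omega)
    simpa using h1
  | succ i ih =>
    intro j
    have h1 := ih (j + 1)
    set φ := Ph (QF (j + 1)) (QG (DD P) i) with hφ
    have hw := hW (j, i)
    simp only [← hφ] at hw
    have l1 := lev_all (pr (3 * j + 2)) φ
    have l2 := lev_all (pr (3 * j + 1)) (Fm.all (pr (3 * j + 2)) φ)
    have l3 := lev_all (pr (3 * j)) (Fm.all (pr (3 * j + 1)) (Fm.all (pr (3 * j + 2)) φ))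
    have h2 := ((h1.gen (pr (3 * j + 2)) (by omega)).gen (pr (3 * j + 1)) (by omega)).gen
      (pr (3 * j)) (by omega)
    have h3 := h2.cut ((hK2 (j, i)).le le_rfl (by omega))
    refine h3.le ?_ le_rfl
    have e1 : j + 1 + i + 1 = j + (i + 1) + 1 := by ring
    have m1 : (j + i + 1) ^ 3 ≤ (j + (i + 1) + 1) ^ 3 := Nat.pow_le_pow_left (by omega) 3
    have m2 : j + (i + 1) + 1 ≤ (j + (i + 1) + 1) ^ 3 := Nat.le_self_pow (by norm_num) _
    simp only [len_all, pr]
    rw [e1]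
    set X := (j + (i + 1) + 1) ^ 3 with hX
    have m3 : len φ ≤ W * (X + 1) := hw.1.trans (Nat.mul_le_mul_left _ (by omega))
    have m4 : K2 * ((j + i + 1) ^ 3 + 1) ≤ K2 * (X + 1) := Nat.mul_le_mul_left _ (by omega)
    have m5 : (K1 + K2 + 3 * W + 100) * ((i + 1 + 1) * (X + 1)) =
        (K1 + K2 + 3 * W + 100) * ((i + 1) * (X + 1)) + (K1 * (X + 1) + K2 * (X + 1) +
          3 * (W * (X + 1)) + 100 * (X + 1)) := by ring
    rw [m5]
    have m6 : 0 ≤ K1 * (X + 1) := Nat.zero_le _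
    omega

/-- The proofs of the finite consistency statements. -/
theorem chain_fin : ∃ (k : ℕ) (p : Polynomial ℕ), ∀ n, ∃ π, IsProof (Ax P) (conAt P (Ax P) n :: π) ∧
    (strs (conAt P (Ax P) n :: π)).length ≤ p.eval n ∧
      ∀ ψ ∈ conAt P (Ax P) n :: π, Cx true k ψ := by
  obtain ⟨K, hK⟩ := chain_all hc hk
  obtain ⟨_, L, hL⟩ := chain_end hc
  refine ⟨K + L, Polynomial.C (K + L) * ((Polynomial.X + 2) * ((Polynomial.X + 1) ^ 3 + 1)),
    fun n => ?_⟩
  have h1 := ((hK n 0).le (k' := K + L) le_rfl (by omega)).cut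
    ((hL n).le (k' := K + L) le_rfl (by omega))
  refine (h1.le ?_ le_rfl).proves
  simp only [Polynomial.eval_mul, Polynomial.eval_C, Polynomial.eval_add, Polynomial.eval_X,
    Polynomial.eval_pow, Polynomial.eval_one, Polynomial.eval_ofNat, Nat.zero_add]
  have e : (K + L) * ((n + 2) * ((n + 1) ^ 3 + 1)) = K * ((n + 1) * ((n + 1) ^ 3 + 1)) +
    L * ((n + 1) ^ 3 + 1) + (K * ((n + 1) ^ 3 + 1) + L * ((n + 1) * ((n + 1) ^ 3 + 1))) := by ring
  omega

end main

end Pool.Agent.TH636.BC
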