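import Pool.Agent.TH636.BC.Fam

/-!
# Replacement in the families
-/

set_option autoImplicit false

namespace Pool.Agent.TH636.BC

open Pool.Agent.TH672

/-- data for one step -/
structure Tup : Type where
  Γ : List Fml
  C : List Fml
  e : Fml
  A : Fml
  A' : Fml
  Z : Fml
  R : Fml
  R' : Fml
  h : lev e = 0 ∧ lev A = 0 ∧ lev A' = 0 ∧ lev Z = 0 ∧ lev R = 0 ∧ lev R' = 0

/-- the size -/
def Tup.n (t : Tup) : ℕ := len t.e + len t.A + len t.A' + len t.Z + len t.R + len t.R'

theorem leib_step : UD (fun t : Tup => t.Γ)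
    (fun t => t.e.imp (t.A.imp t.A') :: t.e.imp (t.R.imp t.R') :: t.C) Tup.n
    (fun t => t.e.imp ((Fm.and t.A (t.Z.imp t.R)).imp (Fm.and t.A' (t.Z.imp t.R')))) := by
  have ue : UB Tup.n (fun t => t.e) := ⟨1, fun t => ⟨by simp only [Tup.n]; omega, by
    have := t.h.1; simp only; omega⟩⟩
  have uA : UB Tup.n (fun t => t.A) := ⟨1, fun t => ⟨by simp only [Tup.n]; omega, by
    have := t.h.2.1; simp only; omega⟩⟩
  have uA' : UB Tup.n (fun t => t.A') := ⟨1, fun t => ⟨by simp only [Tup.n]; omega, by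
    have := t.h.2.2.1; simp only; omega⟩⟩
  have uZ : UB Tup.n (fun t => t.Z) := ⟨1, fun t => ⟨by simp only [Tup.n]; omega, by
    have := t.h.2.2.2.1; simp only; omega⟩⟩
  have uR : UB Tup.n (fun t => t.R) := ⟨1, fun t => ⟨by simp only [Tup.n]; omega, by
    have := t.h.2.2.2.2.1; simp only; omega⟩⟩
  have uR' : UB Tup.n (fun t => t.R') := ⟨1, fun t => ⟨by simp only [Tup.n]; omega, by
    have := t.h.2.2.2.2.2; simp only; omega⟩⟩
  have ub : UB Tup.n (fun _ : Tup => (Fm.bot : Fml)) := UB.const _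
  apply ND.ud
  apply ND.intro
  apply ND.intro
  apply ND.intro
  set h : Tup → Fml := fun t => t.A'.imp (t.Z.imp t.R').neg with hh
  set W : Tup → Fml := fun t => Fm.and t.A (t.Z.imp t.R) with hW
  have uh : UB Tup.n h := uA'.imp ((uZ.imp uR').imp ub)
  have uW : UB Tup.n W := (uA.imp ((uZ.imp uR).imp ub)).imp ub
  have hU : ∀ G ∈ [(fun t => t.Z), (fun t => t.Z.imp t.R), (fun t => t.A), h, W, (fun t => t.e)],
      UB Tup.n G := by
    intro G hG
    simp only [List.mem_cons, List.not_mem_nil, or_false] at hG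
    rcases hG with rfl | rfl | rfl | rfl | rfl | rfl
    · exact uZ
    · exact uZ.imp uR
    · exact uA
    · exact uh
    · exact uW
    · exact ue
  have hU1 : ∀ G ∈ [(fun t => t.Z.imp t.R), (fun t => t.A), h, W, (fun t => t.e)],
      UB Tup.n G := fun G hG => hU G (List.mem_cons_of_mem _ hG)
  have hU2 : ∀ G ∈ [h, W, (fun t => t.e)], UB Tup.n G := fun G hG =>
    hU1 G (List.mem_cons_of_mem _ (List.mem_cons_of_mem _ hG))
  have w : ND (fun t : Tup => t.Γ)
      (fun t => t.e.imp (t.A.imp t.A') :: t.e.imp (t.R.imp t.R') :: t.C) Tup.n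
      [h, W, (fun t => t.e)] (fun t => (t.A.imp (t.Z.imp t.R).neg).imp Fm.bot) :=
    ND.hyp hU2 (by simp [hW, Fm.and, Fm.neg])
  refine w.mp ?_
  apply ND.intro
  apply ND.intro
  have h1 : ND (fun t : Tup => t.Γ)
      (fun t => t.e.imp (t.A.imp t.A') :: t.e.imp (t.R.imp t.R') :: t.C) Tup.n
      [(fun t => t.Z.imp t.R), (fun t => t.A), h, W, (fun t => t.e)]
      (fun t => t.A'.imp ((t.Z.imp t.R').imp Fm.bot)) := ND.hyp hU1 (by simp [hh, Fm.neg])
  refine (h1.mp ?_).mp ?_
  · have h2 : ND (fun t : Tup => t.Γ)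
        (fun t => t.e.imp (t.A.imp t.A') :: t.e.imp (t.R.imp t.R') :: t.C) Tup.n
        [(fun t => t.Z.imp t.R), (fun t => t.A), h, W, (fun t => t.e)]
        (fun t => t.e.imp (t.A.imp t.A')) :=
      ND.of (UD.hyp (ue.imp (uA.imp uA')) (fun j => by simp)) hU1
    exact (h2.mp (ND.hyp hU1 (by simp))).mp (ND.hyp hU1 (by simp))
  · apply ND.intro
    have h2 : ND (fun t : Tup => t.Γ)
        (fun t => t.e.imp (t.A.imp t.A') :: t.e.imp (t.R.imp t.R') :: t.C) Tup.n
        [(fun t => t.Z), (fun t => t.Z.imp t.R), (fun t => t.A), h, W, (fun t => t.e)]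
        (fun t => t.e.imp (t.R.imp t.R')) :=
      ND.of (UD.hyp (ue.imp (uR.imp uR')) (fun j => by simp)) hU
    have h3 : ND (fun t : Tup => t.Γ)
        (fun t => t.e.imp (t.A.imp t.A') :: t.e.imp (t.R.imp t.R') :: t.C) Tup.n
        [(fun t => t.Z), (fun t => t.Z.imp t.R), (fun t => t.A), h, W, (fun t => t.e)]
        (fun t => t.Z.imp t.R) := ND.hyp hU (by simp)
    exact (h2.mp (ND.hyp hU (by simp))).mp (h3.mp (ND.hyp hU (by simp)))

theorem leib_QF : ∃ K, ∀ (Γ C : List Fml) (j x y : ℕ),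
    Ext Γ C (K * ((j + 1) * ((j + 1) * (j + 1 + x + y)))) K
      ((Fm.eq x y).imp ((QF j x).imp (QF j y))) := by
  obtain ⟨_, K, hK⟩ := leib_step
  refine ⟨300 * (K + 1), fun Γ C j x y => ?_⟩
  induction j with
  | zero =>
    have h : LogK ((Fm.eq x y).imp ((QF 0 x).imp (QF 0 y))) :=
      LogK.repl _ _ _ _ (.eq (Or.inr ⟨rfl, rfl⟩) (Or.inr ⟨rfl, rfl⟩))
    refine (Ext.log h).le ?_ ?_
    · simp only [QF, len_imp]
      simp [len, str, varStr]
      nlinarith [Nat.zero_le (K * (x + y))]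
    · simp [QF, lev, rk]
  | succ j ih =>
    set e : Fml := Fm.eq x y with he
    set Z : Fml := Fm.zero (pr (3 * j)) with hZ
    set R : Fml := col (pr (3 * j + 1)) x (pr (3 * j + 2)) with hR
    set R' : Fml := col (pr (3 * j + 1)) y (pr (3 * j + 2)) with hR'
    have hl : LogK (e.imp (R.imp R')) :=
      LogK.repl _ _ _ _ (.op (Or.inl rfl) (Or.inr ⟨rfl, rfl⟩) (Or.inl rfl) (Or.inl rfl))
    let t : Tup := ⟨Γ, C, e, QF j x, QF j y, Z, R, R', rfl, rk_QF j x true, rk_QF j y true,
      rfl, rfl, rfl⟩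
    have h1 := hK t
    have h2 : Ext Γ C (len (e.imp (R.imp R'))) (300 * (K + 1)) (e.imp (R.imp R')) :=
      (Ext.log hl).le le_rfl (by simp [he, hR, hR', lev, rk, col])
    have h3 : Ext Γ (e.imp (R.imp R') :: C) (300 * (K + 1) * ((j + 1) * ((j + 1) * (j + 1 + x + y))))
        (300 * (K + 1)) (e.imp ((QF j x).imp (QF j y))) :=
      ih.ctx fun _ h => List.mem_cons_of_mem _ h
    have h4 := h2.cut (h3.cut (h1.le le_rfl (by omega)))
    refine h4.le ?_ le_rfl
    have l1 := len_QF j x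
    have l2 := len_QF j y
    have l3 : len e = x + y + 6 := by simp [he, len, str, varStr]; omega
    have l4 : len Z = 6 * j + 11 := by simp [hZ, len, str, varStr, pr]; omega
    have l5 : len R = 18 * j + 40 + x := by simp [hR, len, str, varStr, pr, col]; omega
    have l6 : len R' = 18 * j + 40 + y := by simp [hR', len, str, varStr, pr, col]; omega
    have l7 : len (e.imp (R.imp R')) = len e + len R + len R' + 8 := by
      simp only [len_imp]; omega
    have l8 : t.n = len e + len (QF j x) + len (QF j y) + len Z + len R + len R' := rfl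
    rw [l8, l7, l3, l4, l5, l6]
    set a := len (QF j x)
    set b := len (QF j y)
    have l9 : x + y + 6 + a + b + (6 * j + 11) + (18 * j + 40 + x) + (18 * j + 40 + y) + 1 ≤
        150 * ((j + 2) * (j + 2 + x + y)) := by nlinarith
    have l10 : x + y + 6 + (18 * j + 40 + x) + (18 * j + 40 + y) + 8 ≤
        150 * ((j + 2) * (j + 2 + x + y)) := by nlinarith
    have l11 : K * (x + y + 6 + a + b + (6 * j + 11) + (18 * j + 40 + x) + (18 * j + 40 + y) + 1) ≤
        K * (150 * ((j + 2) * (j + 2 + x + y))) := Nat.mul_le_mul_left _ l9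
    have l12 : (j + 1) * ((j + 1) * (j + 1 + x + y)) + (j + 2) * (j + 2 + x + y) ≤
        (j + 1 + 1) * ((j + 1 + 1) * (j + 1 + 1 + x + y)) := by nlinarith
    have l13 := Nat.mul_le_mul_left (300 * (K + 1)) l12
    have l14 : 300 * (K + 1) * ((j + 1) * ((j + 1) * (j + 1 + x + y)) + (j + 2) * (j + 2 + x + y)) =
      300 * (K + 1) * ((j + 1) * ((j + 1) * (j + 1 + x + y))) +
        (K * (150 * ((j + 2) * (j + 2 + x + y))) + K * (150 * ((j + 2) * (j + 2 + x + y))) +
          300 * ((j + 2) * (j + 2 + x + y))) := by ring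
    omega

variable {J : Type} {Γ C : J → List Fml} {N : J → ℕ}

theorem ub_QG {D : Fml} {i v : J → ℕ} (hi : LB N i) (hv : LB N v) :
    UB N (fun j => QG D (i j) (v j)) := by
  obtain ⟨K, hK⟩ := hi
  obtain ⟨L, hL⟩ := hv
  refine ⟨33 * K + L + (len D + 15 + rk D false + 2), fun j => ⟨?_, ?_⟩⟩
  · simp only [len_QG]
    have h1 := hK j
    have h2 := hL j
    have h3 : len D + 15 + rk D false + 2 ≤ (len D + 15 + rk D false + 2) * (N j + 1) :=
      Nat.le_mul_of_pos_right _ (by omega)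
    have h4 : (33 * K + L + (len D + 15 + rk D false + 2)) * (N j + 1) =
      33 * (K * (N j + 1)) + L * (N j + 1) + (len D + 15 + rk D false + 2) * (N j + 1) := by ring
    omega
  · have h := lev_QG D (i j) (v j)
    simp only
    omega

theorem ub_blk {D : Fml} {i : J → ℕ} (hi : LB N i) : UB N (fun j => blk^[i j] D) := by
  have h : UB N (fun j => QG D (i j) 0) := ub_QG hi (lb_const 0)
  exact (UB.of_all (x := fun _ => 0) h).right

theorem leib_QG {D : Fml} {i x y : J → ℕ} (hi : LB N i)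
    (hx : LB N x) (hy : LB N y) (hx0 : ∀ j, x j ≠ 0) (hy0 : ∀ j, y j ≠ 0) :
    UD Γ C N (fun j => (Fm.eq (x j) (y j)).imp ((QG D (i j) (x j)).imp (QG D (i j) (y j)))) := by
  apply ND.ud
  apply ND.intro
  apply ND.intro
  refine ND.gen' 0 ?_ (ND.intro ?_)
  · intro G hG j
    simp only [List.mem_cons, List.not_mem_nil, or_false] at hG
    rcases hG with rfl | rfl
    · simp [QG, Fm.Free]
    · simp only [Fm.Free]
      have h1 := hx0 j
      have h2 := hy0 j
      omega
  · set Δ : List (J → Fml) := [fun j => Fm.eq 0 (y j), fun j => QG D (i j) (x j),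
      fun j => Fm.eq (x j) (y j)] with hΔ
    have hU : ∀ G ∈ Δ, UB N G := by
      intro G hG
      simp only [hΔ, List.mem_cons, List.not_mem_nil, or_false] at hG
      rcases hG with rfl | rfl | rfl
      · exact ub_eq (lb_const 0) hy
      · exact ub_QG hi hx
      · exact ub_eq hx hy
    have e : ND Γ C N Δ (fun j => Fm.eq (x j) (y j)) := ND.hyp hU (by simp [hΔ])
    have w : ND Γ C N Δ (fun j => QG D (i j) (x j)) := ND.hyp hU (by simp [hΔ])
    have s : ND Γ C N Δ (fun j => Fm.eq 0 (y j)) := ND.hyp hU (by simp [hΔ])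
    have s' : ND Γ C N Δ (fun j => Fm.eq 0 (x j)) :=
      nd_trans (x := fun _ => 0) (lb_const 0) hy hx s (nd_symm hx hy e)
    exact (nd_inst_self (x := fun _ => 0) w).mp s'

end Pool.Agent.TH636.BC
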