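import Pool.Agent.TH636.BC.Fin
import Pool.Agent.TH636.BC.Cons
import Pool.Agent.TH921.J1544
import Pool.Agent.TH197.J1545
import Pool.Agent.TH921.J1546
import Pool.Agent.TH955.J1547
import Pool.Agent.TH554.J1548
import Pool.Agent.TH838.J1549
import Pool.Agent.TH737.J1550

set_option autoImplicit false

/-!
# The main theorem
-/

namespace Pool.Agent.TH636.BC

open Pool.Agent.TH672

theorem pv_of {A : List Fml} {φ : Fml} (hA : ∀ ψ ∈ A, ψ.Closed) (hφ : φ.Closed)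
    (h : ∀ S : Str ℕ, (∀ ψ ∈ A, ∀ v : ℕ → S.M, Fm.Sat S ψ v) → ∀ v : ℕ → S.M, Fm.Sat S φ v) :
    Pv (fun ψ => ψ ∈ A) φ :=
  Pool.Agent.TH690.J100.completeness A φ hA hφ fun S v hv => h S (fun ψ hψ _ =>
    (Pool.Agent.TH838.J1549.sat_cong fun x hx => absurd hx (hA ψ hψ x)).1 (hv ψ hψ)) v

attribute [local irreducible] K0 Ax in
theorem pv_K0 {P : Fml} (hP : ∀ x, P.Free x → x = 2 ∨ x = 3 ∨ x = 4) :
    Pv (fun ψ => ψ ∈ Ax P) (K0 P) :=
  pv_of (Pool.Agent.TH737.J1550.closed_Ax P hP) (Pool.Agent.TH737.J1550.closed_K0 P hP)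
    (Pool.Agent.TH737.J1550.k0S P hP)

theorem rob_sub (P : Fml) : ∀ φ ∈ robinson, φ ∈ Ax P := fun _ hφ =>
  List.mem_cons_of_mem _ (List.mem_append_left _ (List.mem_append_left _ hφ))

theorem main : (∃ P, Numerates P) ∧ ∀ P, Numerates P →
    ∃ A : List Fml, (∀ φ ∈ robinson, φ ∈ A) ∧ (∀ φ ∈ A, φ.Closed) ∧
      (∀ m, ¬ Proves A m Fm.bot) ∧
      ∃ (k : ℕ) (p : Polynomial ℕ), ∀ n, ∃ π, IsProof A (conAt P A n :: π) ∧
        (strs (conAt P A n :: π)).length ≤ p.eval n ∧ ∀ ψ ∈ conAt P A n :: π, Cx true k ψ := by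
  refine ⟨exists_numerates Pool.Agent.TH838.J1549.repr
    (Pool.Agent.TH554.J1548.prComp Pool.Agent.TH921.J1546.gnStr Pool.Agent.TH955.J1547.gnLog),
    fun P hP => ⟨Ax P, rob_sub P, Pool.Agent.TH737.J1550.closed_Ax P hP.free,
      cons_of Pool.Agent.TH921.J1544.soundS Pool.Agent.TH197.J1545.axS hP,
      chain_fin (Pool.Agent.TH737.J1550.free_con P hP.free (Ax P)) (pv_K0 hP.free)⟩⟩

end Pool.Agent.TH636.BC
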