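import Pool.Agent.TH636.BC.Theory

/-!
# The pseudo-model of dimension `m`
-/

set_option autoImplicit false

namespace Pool.Agent.TH636.BC

open Pool.Agent.TH672

/-- A state: the value of a variable is a number `inl a` or a node `inr h` of height `h`; for
variables `i`, `j` whose values are nodes, `c i j` is `0` if the nodes are equal and `δ + 1` if
they are different and have the colour `δ`. -/
structure St where
  v : ℕ → ℕ ⊕ ℕ
  c : ℕ → ℕ → ℕ

/-- the valid states of dimension `m`; only the variables below `m` matter -/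
structure Ok (m : ℕ) (s : St) : Prop where
  norm : ∀ i < m, ∀ j < m, (s.v i).isLeft ∨ (s.v j).isLeft → s.c i j = 0
  refl : ∀ i < m, s.c i i = 0
  symm : ∀ i < m, ∀ j < m, s.c i j = s.c j i
  le : ∀ i < m, ∀ j < m, s.c i j ≤ m
  val : ∀ i < m, ∀ j < m, (s.v i).isRight → (s.v j).isRight → s.c i j = 0 → s.v i = s.v j
  cong : ∀ i < m, ∀ j < m, ∀ k < m, (s.v i).isRight → (s.v j).isRight → s.c i j = 0 →
    s.c i k = s.c j k
  tri : ∀ i < m, ∀ j < m, ∀ k < m, s.c i j = s.c j k → s.c j k = s.c i k → s.c i j = 0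

/-- the states agree off `x` -/
def Agr (m x : ℕ) (s t : St) : Prop :=
  (∀ i < m, i ≠ x → s.v i = t.v i) ∧ ∀ i < m, ∀ j < m, i ≠ x → j ≠ x → s.c i j = t.c i j

/-- the values of `x` and `y` are equal -/
def Eqs (s : St) (x y : ℕ) : Prop := s.v x = s.v y ∧ s.c x y = 0

/-- `w` is the number of the string `hd ++ bs ++ ⋯ ++ bs` with `x` times `bs` -/
def Erel (x w : ℕ) : Prop := w = num (hd ++ (List.replicate x bs).flatten)

/-- `w` is the number of the string `hd ++ bs ++ ⋯ ++ bs ++ tl ++ digits z` with `x` times `bs` -/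
def Crel (x z w : ℕ) : Prop := w = num (hd ++ (List.replicate x bs).flatten ++ tl ++ digits z)

/-- addition -/
def AddS (s : St) (x y z : ℕ) : Prop :=
  match s.v x, s.v y with
  | .inl a, .inl b => s.v z = .inl (a + b)
  | .inr _, .inl _ => Eqs s x z
  | _, .inr _ => Eqs s y z

/-- multiplication -/
def MulS (s : St) (x y z : ℕ) : Prop :=
  match s.v x, s.v y with
  | .inl a, .inl b => s.v z = .inl (a * b)
  | .inr _, .inl b => if b = 0 then s.v z = .inl 0 else Eqs s x z
  | .inl _, .inr _ => Eqs s y z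
  | .inr _, .inr _ => Eqs s x z

/-- successor -/
def SuccS (s : St) (x y : ℕ) : Prop :=
  match s.v x with
  | .inl a => s.v y = .inl (a + 1)
  | .inr _ => Eqs s x y

/-- the additional symbols -/
def OpS (s : St) (i a b c : ℕ) : Prop :=
  match i with
  | 0 => (s.v a).isLeft
  | 1 => ∃ p q, s.v a = .inl p ∧ s.v b = .inl q ∧ p < q
  | 2 => ∃ h, s.v a = .inr h ∧ s.v b = .inl h
  | 3 => ∃ δ, s.v c = .inl δ ∧ s.c a b = δ + 1
  | 4 => ∃ p q, s.v a = .inl p ∧ s.v b = .inl q ∧ Erel p q
  | 5 => ∃ p q r, s.v a = .inl p ∧ s.v b = .inl q ∧ s.v c = .inl r ∧ Crel p q r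
  | _ => False

/-- pseudo-truth; the quantifiers range over the valid states that agree off the variable -/
def Tru (m : ℕ) : Fml → St → Prop
  | .bot, _ => False
  | .eq x y, s => Eqs s x y
  | .zero x, s => s.v x = .inl 0
  | .succ x y, s => SuccS s x y
  | .add x y z, s => AddS s x y z
  | .mul x y z, s => MulS s x y z
  | .op i a b c _, s => OpS s i a b c
  | .imp φ ψ, s => Tru m φ s → Tru m ψ s
  | .all x φ, s => ∀ t, Ok m t → Agr m x t s → Tru m φ t

/-- all variables of the formula (free or bound) are below `m` -/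
def Vlt (m : ℕ) : Fml → Prop
  | .bot => True
  | .eq x y => x < m ∧ y < m
  | .zero x => x < m
  | .succ x y => x < m ∧ y < m
  | .add x y z => x < m ∧ y < m ∧ z < m
  | .mul x y z => x < m ∧ y < m ∧ z < m
  | .op _ a b c d => a < m ∧ b < m ∧ c < m ∧ d < m
  | .imp φ ψ => Vlt m φ ∧ Vlt m ψ
  | .all x φ => x < m ∧ Vlt m φ

/-- a formula whose variables are below `m` is true in all valid states -/
def Tr1 (m : ℕ) (φ : Fml) : Prop := ∀ s, Ok m s → Tru m φ s

/-- Soundness of the calculus (statement). -/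
def SoundS : Prop := ∀ (m : ℕ) (Γ π : List Fml), IsProof Γ π → (∀ φ ∈ π, Vlt m φ) →
  (∀ φ ∈ Γ, Vlt m φ → Tr1 m φ) → ∀ φ ∈ π, Tr1 m φ

/-- The axioms are true in the pseudo-model of dimension `m` if there is no contradiction of
length less than `m` (statement). -/
def AxS : Prop := ∀ (P : Fml), Numerates P → ∀ m : ℕ, (∀ y < m, ¬ Proves (Ax P) y .bot) →
  ∀ φ ∈ Ax P, Vlt m φ → Tr1 m φ

end Pool.Agent.TH636.BC
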