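import Pool.Agent.TH636.BC.Defs

/-!
# The axiomatization
-/

set_option autoImplicit false

namespace Pool.Agent.TH636.BC

open Pool.Agent.TH672

/-- `x` is a number -/
def nat (x : ℕ) : Fml := .op 0 x x x x
/-- `x < y` -/
def lt (x y : ℕ) : Fml := .op 1 x y y y
/-- the height of the node `u` is `h` -/
def ht (u h : ℕ) : Fml := .op 2 u h h h
/-- the colour of the nodes `u`, `v` is `c` -/
def col (u v c : ℕ) : Fml := .op 3 u v c c
/-- `w` is the number of the string `hd ++ bs ++ ⋯ ++ bs` with `x` times `bs` -/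
def Ef (x w : ℕ) : Fml := .op 4 x w w w
/-- `w` is the number of the string `hd ++ bs ++ ⋯ ++ bs ++ tl ++ s` with `x` times `bs`, where `s`
is the string with the number `z` -/
def Cf (x z w : ℕ) : Fml := .op 5 x z w w

/-- basic axioms -/
def T0 : List Fml := [
  .ex 15 (.zero 15),
  .all 15 (.ex 17 (.succ 15 17)),
  .all 15 (.all 17 (.imp (.succ 15 17) (.neg (.zero 17)))),
  .all 15 (.imp (.zero 15) (nat 15)),
  .all 15 (.all 17 (.imp (nat 15) (.imp (.succ 15 17) (nat 17)))),
  .all 15 (.all 17 (.imp (.zero 15) (.neg (lt 17 15)))),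
  .all 15 (.all 17 (.all 19 (.imp (.succ 15 17) (.imp (lt 19 17) (.or (lt 19 15) (.eq 19 15)))))),
  .all 15 (.all 17 (.imp (nat 15) (.imp (nat 17)
    (.ex 19 (.and (nat 19) (.all 21 (.imp (lt 19 21) (.and (lt 15 21) (lt 17 21))))))))),
  .all 15 (.all 17 (.imp (ht 15 17) (nat 17))),
  .all 15 (.imp (nat 15) (.ex 17 (.ex 19 (.and (ht 17 19) (lt 15 19))))),
  .all 15 (.all 17 (.all 19 (.all 21 (.imp (ht 15 19) (.imp (ht 17 21) (.imp (lt 19 21)
    (.ex 23 (col 15 17 23)))))))),
  .all 15 (.all 17 (.all 19 (.all 21 (.imp (col 15 17 21) (.imp (col 15 19 21)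
    (.neg (col 17 19 21)))))))]

/-- the beginning of the string of `inst x n φ` -/
def hd : List Bool :=
  [true, false, false, false] ++ varStr 0 ++ [false, true, true, true] ++ str (.zero 0)

/-- the block of the string of `inst x n φ` that is repeated `n` times -/
def bs : List Bool :=
  [true, false, false, false] ++ varStr 1 ++ [false, true, true, true] ++ str (.succ 0 1) ++
  [true, false, false, false] ++ varStr 0 ++ [false, true, true, true] ++ str (.eq 0 1)

/-- the part of the string of `inst 29 n φ` before the string of `φ` -/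
def tl : List Bool :=
  [true, false, false, false] ++ varStr 29 ++ [false, true, true, true] ++ str (.eq 29 0)

/-- `num (s ++ σ)` is `2 ^ σ.length * num s + num σ`: the formula
`ψ` holds for `v₂₇ = 2 ^ σ.length * v₁₇ + num σ` -/
def appn (σ : List Bool) (ψ : Fml) : Fml :=
  inst 21 (2 ^ σ.length) (inst 23 (num σ) (.all 25 (.imp (.mul 21 17 25)
    (.all 27 (.imp (.add 25 23 27) ψ)))))

/-- the axioms for the computation of strings -/
def TE : List Fml := [
  .all 15 (.imp (.zero 15) (inst 17 (num hd) (Ef 15 17))),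
  .all 15 (.all 17 (.imp (Ef 15 17) (.all 19 (.imp (.succ 15 19) (appn bs (Ef 19 27)))))),
  .all 15 (.all 17 (.imp (Ef 15 17) (.all 19 (.imp (.zero 19) (appn tl (Cf 15 19 27)))))),
  .all 15 (.all 17 (.all 19 (.imp (Cf 15 17 19) (.all 21 (.imp (.add 17 17 21)
    (.all 23 (.imp (.succ 21 23) (.all 25 (.imp (.add 19 19 25)
      (.all 27 (.imp (.succ 25 27) (Cf 15 23 27)))))))))))),
  .all 15 (.all 17 (.all 19 (.imp (Cf 15 17 19) (.all 21 (.imp (.add 17 17 21)
    (.all 23 (.imp (.succ 21 23) (.all 33 (.imp (.succ 23 33) (.all 25 (.imp (.add 19 19 25)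
      (.all 27 (.imp (.succ 25 27) (.all 35 (.imp (.succ 27 35) (Cf 15 33 35))))))))))))))))]

/-- all axioms but one -/
def TB : List Fml := robinson ++ T0 ++ TE

/-- the formula for the last axiom: if a colour `≥ y` occurs, then there is no contradiction of
length at most `y` from the axioms with the code `w`, `C (v₂₉, v₂₉, w)` -/
def sgf (P : Fml) : Fml :=
  .all 2 (.imp (Cf 29 29 2) (.all 3 (.all 33 (.all 35 (.all 37 (.imp (nat 3) (.imp (col 33 35 37)
    (.imp (.neg (lt 37 3)) (inst 4 (code [Fm.bot]) P.neg)))))))))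

/-- the number used for the self-reference -/
def tn (P : Fml) : ℕ := code (sgf P :: TB)

/-- the last axiom -/
def sg (P : Fml) : Fml := inst 29 (tn P) (sgf P)

/-- the axiomatization -/
def Ax (P : Fml) : List Fml := sg P :: TB

end Pool.Agent.TH636.BC
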