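import Pool.Agent.TH636.BC.UD
import Pool.Agent.TH672.Step
import Pool.Agent.TH690.J100

/-!
# The translation of schematic formulas; semantic consequences can be derived uniformly
-/

set_option autoImplicit false

namespace Pool.Agent.TH636.BC

open Pool.Agent.TH672

/-- the variables of the schematic formulas -/
def okv (x : ℕ) : Prop := x % 2 = 1 ∧ 7 ≤ x

instance (x : ℕ) : Decidable (okv x) := inferInstanceAs (Decidable (x % 2 = 1 ∧ 7 ≤ x))

/-- the translation: variables are renamed and the symbols `i ≥ 10` are replaced by formulas -/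
def trf (f : ℕ → ℕ) (Q : ℕ → ℕ → Fml) : Fml → Fml
  | .bot => .bot
  | .eq x y => .eq (f x) (f y)
  | .zero x => .zero (f x)
  | .succ x y => .succ (f x) (f y)
  | .add x y z => .add (f x) (f y) (f z)
  | .mul x y z => .mul (f x) (f y) (f z)
  | .op i a b c d => if i < 10 then .op i (f a) (f b) (f c) (f d) else Q i (f a)
  | .imp φ ψ => .imp (trf f Q φ) (trf f Q ψ)
  | .all x φ => .all (f x) (trf f Q φ)

/-- only the variables of the schematic formulas occur -/
def Avk : Fml → Prop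
  | .bot => True
  | .eq x y => okv x ∧ okv y
  | .zero x => okv x
  | .succ x y => okv x ∧ okv y
  | .add x y z => okv x ∧ okv y ∧ okv z
  | .mul x y z => okv x ∧ okv y ∧ okv z
  | .op _ a b c d => okv a ∧ okv b ∧ okv c ∧ okv d
  | .imp φ ψ => Avk φ ∧ Avk ψ
  | .all x φ => okv x ∧ Avk φ

/-- the conditions for the formulas `Q v` -/
structure Fam (I : ℕ → Prop) (Q : ℕ → Fml) : Prop where
  sub : ∀ v x y, I v → I x → I y → (Q v).subst x y = Q (Form.ren x y v)
  fr : ∀ v x, I v → I x → (Q v).Free x → x = v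
  ff : ∀ v x y, I v → I x → I y → (Q v).FreeFor y x

/-- the conditions for the translation -/
structure Gd (I : ℕ → Prop) (f : ℕ → ℕ) (Q : ℕ → ℕ → Fml) : Prop where
  maps : ∀ x, okv x → I (f x)
  inj : ∀ x y, okv x → okv y → f x = f y → x = y
  fam : ∀ i, Fam I (Q i)

variable {I : ℕ → Prop} {f : ℕ → ℕ} {Q : ℕ → ℕ → Fml}

theorem Gd.ren (g : Gd I f Q) {x y u : ℕ} (hx : okv x) (hu : okv u) :
    Form.ren (f x) (f y) (f u) = f (Form.ren x y u) := by
  unfold Form.ren
  by_cases h : u = x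
  · subst h; simp
  · have h' : f u ≠ f x := fun e => h (g.inj _ _ hu hx e)
    simp [h, h']

theorem trf_free (g : Gd I f Q) {x : ℕ} (hx : okv x) :
    ∀ {φ : Fml}, Avk φ → (trf f Q φ).Free (f x) → φ.Free x := by
  intro φ
  induction φ with
  | bot => intro _ h; exact h
  | eq a b =>
    rintro ⟨ha, hb⟩ (h | h)
    · exact Or.inl (g.inj _ _ hx ha h)
    · exact Or.inr (g.inj _ _ hx hb h)
  | zero a => intro ha h; exact g.inj _ _ hx ha h
  | succ a b =>
    rintro ⟨ha, hb⟩ (h | h)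
    · exact Or.inl (g.inj _ _ hx ha h)
    · exact Or.inr (g.inj _ _ hx hb h)
  | add a b c =>
    rintro ⟨ha, hb, hc⟩ (h | h | h)
    · exact Or.inl (g.inj _ _ hx ha h)
    · exact Or.inr (Or.inl (g.inj _ _ hx hb h))
    · exact Or.inr (Or.inr (g.inj _ _ hx hc h))
  | mul a b c =>
    rintro ⟨ha, hb, hc⟩ (h | h | h)
    · exact Or.inl (g.inj _ _ hx ha h)
    · exact Or.inr (Or.inl (g.inj _ _ hx hb h))
    · exact Or.inr (Or.inr (g.inj _ _ hx hc h))
  | op i a b c d =>
    rintro ⟨ha, hb, hc, hd⟩ h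
    simp only [trf] at h
    split_ifs at h with hi
    · rcases h with h | h | h | h
      · exact Or.inl (g.inj _ _ hx ha h)
      · exact Or.inr (Or.inl (g.inj _ _ hx hb h))
      · exact Or.inr (Or.inr (Or.inl (g.inj _ _ hx hc h)))
      · exact Or.inr (Or.inr (Or.inr (g.inj _ _ hx hd h)))
    · exact Or.inl (g.inj _ _ hx ha ((g.fam i).fr _ _ (g.maps _ ha) (g.maps _ hx) h))
  | imp φ ψ ih ih' =>
    rintro ⟨h1, h2⟩ (h | h)
    · exact Or.inl (ih h1 h)
    · exact Or.inr (ih' h2 h)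
  | all u φ ih =>
    rintro ⟨h1, h2⟩ ⟨h3, h4⟩
    exact ⟨fun e => h3 (e ▸ rfl), ih h2 h4⟩

theorem trf_subst (g : Gd I f Q) {x y : ℕ} (hx : okv x) (hy : okv y) :
    ∀ {φ : Fml}, Avk φ → trf f Q (φ.subst x y) = (trf f Q φ).subst (f x) (f y) := by
  intro φ
  induction φ with
  | bot => intro _; rfl
  | eq a b => rintro ⟨ha, hb⟩; simp [trf, Fm.subst, g.ren hx ha, g.ren hx hb]
  | zero a => intro ha; simp [trf, Fm.subst, g.ren hx ha]
  | succ a b => rintro ⟨ha, hb⟩; simp [trf, Fm.subst, g.ren hx ha, g.ren hx hb]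
  | add a b c => rintro ⟨ha, hb, hc⟩; simp [trf, Fm.subst, g.ren hx ha, g.ren hx hb, g.ren hx hc]
  | mul a b c => rintro ⟨ha, hb, hc⟩; simp [trf, Fm.subst, g.ren hx ha, g.ren hx hb, g.ren hx hc]
  | op i a b c d =>
    rintro ⟨ha, hb, hc, hd⟩
    by_cases hi : i < 10
    · simp [trf, Fm.subst, hi, g.ren hx ha, g.ren hx hb, g.ren hx hc, g.ren hx hd]
    · simp only [trf, Fm.subst, hi, if_false]
      rw [(g.fam i).sub _ _ _ (g.maps _ ha) (g.maps _ hx) (g.maps _ hy), g.ren hx ha]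
  | imp φ ψ ih ih' => rintro ⟨h1, h2⟩; simp [trf, Fm.subst, ih h1, ih' h2]
  | all u φ ih =>
    rintro ⟨h1, h2⟩
    simp only [trf, Fm.subst]
    by_cases h : u = x
    · subst h; simp [trf]
    · have h' : f u ≠ f x := fun e => h (g.inj _ _ h1 hx e)
      simp [h, h', trf, ih h2]

theorem trf_freeFor (g : Gd I f Q) {x y : ℕ} (hx : okv x) (hy : okv y) :
    ∀ {φ : Fml}, Avk φ → φ.FreeFor y x → (trf f Q φ).FreeFor (f y) (f x) := by
  intro φ
  induction φ with
  | op i a b c d =>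
    rintro ⟨ha, hb, hc, hd⟩ _
    by_cases hi : i < 10
    · simp only [trf, hi, if_true]; trivial
    · simp only [trf, hi, if_false]
      exact (g.fam i).ff _ _ _ (g.maps _ ha) (g.maps _ hx) (g.maps _ hy)
  | imp φ ψ ih ih' => rintro ⟨h1, h2⟩ ⟨h3, h4⟩; exact ⟨ih h1 h3, ih' h2 h4⟩
  | all u φ ih =>
    rintro ⟨h1, h2⟩ (h | h | h)
    · exact Or.inl (h ▸ rfl)
    · exact Or.inr (Or.inl (fun hf => h (trf_free g hx h2 hf)))
    · exact Or.inr (Or.inr ⟨fun e => h.1 (g.inj _ _ h1 hy e), ih h2 h.2⟩)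
  | _ => intro _ _; trivial

/-! ### Uniform bounds -/

variable {J : Type} {N : J → ℕ}

/-- linearly bounded numbers -/
def LB (N : J → ℕ) (x : J → ℕ) : Prop := ∃ K, ∀ j, x j ≤ K * (N j + 1)

theorem ub_atom {F : J → Fml} (K : ℕ) (h : ∀ j, len (F j) ≤ K * (N j + 1)) (hl : ∀ j, lev (F j) = 0) :
    UB N F := ⟨K, fun j => ⟨h j, by rw [hl j]; omega⟩⟩

theorem ub_eq {x y : J → ℕ} (hx : LB N x) (hy : LB N y) : UB N (fun j => Fm.eq (x j) (y j)) := by
  obtain ⟨K, hK⟩ := hx
  obtain ⟨L, hL⟩ := hy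
  refine ub_atom (K + L + 20) (fun j => ?_) fun j => rfl
  have h1 := hK j
  have h2 := hL j
  have h3 : len (Fm.eq (x j) (y j) : Fml) = x j + y j + 6 := by
    simp [len, str, varStr]; omega
  rw [h3]
  have h4 : (K + L + 20) * (N j + 1) = K * (N j + 1) + L * (N j + 1) + 20 * (N j + 1) := by ring
  omega

theorem ub_zero {x : J → ℕ} (hx : LB N x) : UB N (fun j => Fm.zero (x j)) := by
  obtain ⟨K, hK⟩ := hx
  refine ub_atom (K + 20) (fun j => ?_) fun j => rfl
  have h1 := hK j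
  have h3 : len (Fm.zero (x j) : Fml) = x j + 5 := by
    simp [len, str, varStr]
  rw [h3]
  have h4 : (K + 20) * (N j + 1) = K * (N j + 1) + 20 * (N j + 1) := by ring
  omega

theorem ub_succ {x y : J → ℕ} (hx : LB N x) (hy : LB N y) :
    UB N (fun j => Fm.succ (x j) (y j)) := by
  obtain ⟨K, hK⟩ := hx
  obtain ⟨L, hL⟩ := hy
  refine ub_atom (K + L + 20) (fun j => ?_) fun j => rfl
  have h1 := hK j
  have h2 := hL j
  have h3 : len (Fm.succ (x j) (y j) : Fml) = x j + y j + 6 := by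
    simp [len, str, varStr]; omega
  rw [h3]
  have h4 : (K + L + 20) * (N j + 1) = K * (N j + 1) + L * (N j + 1) + 20 * (N j + 1) := by ring
  omega

theorem ub_add {x y z : J → ℕ} (hx : LB N x) (hy : LB N y) (hz : LB N z) :
    UB N (fun j => Fm.add (x j) (y j) (z j)) := by
  obtain ⟨K, hK⟩ := hx
  obtain ⟨L, hL⟩ := hy
  obtain ⟨M, hM⟩ := hz
  refine ub_atom (K + L + M + 20) (fun j => ?_) fun j => rfl
  have h1 := hK j
  have h2 := hL j
  have h2' := hM j
  have h3 : len (Fm.add (x j) (y j) (z j) : Fml) = x j + y j + z j + 7 := by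
    simp [len, str, varStr]; omega
  rw [h3]
  have h4 : (K + L + M + 20) * (N j + 1) = K * (N j + 1) + L * (N j + 1) + M * (N j + 1) +
    20 * (N j + 1) := by ring
  omega

theorem ub_mul {x y z : J → ℕ} (hx : LB N x) (hy : LB N y) (hz : LB N z) :
    UB N (fun j => Fm.mul (x j) (y j) (z j)) := by
  obtain ⟨K, hK⟩ := hx
  obtain ⟨L, hL⟩ := hy
  obtain ⟨M, hM⟩ := hz
  refine ub_atom (K + L + M + 20) (fun j => ?_) fun j => rfl
  have h1 := hK j
  have h2 := hL j
  have h2' := hM j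
  have h3 : len (Fm.mul (x j) (y j) (z j) : Fml) = x j + y j + z j + 7 := by
    simp [len, str, varStr]; omega
  rw [h3]
  have h4 : (K + L + M + 20) * (N j + 1) = K * (N j + 1) + L * (N j + 1) + M * (N j + 1) +
    20 * (N j + 1) := by ring
  omega

theorem ub_op (i : ℕ) {a b c d : J → ℕ} (ha : LB N a) (hb : LB N b) (hc : LB N c) (hd : LB N d) :
    UB N (fun j => Fm.op i (a j) (b j) (c j) (d j)) := by
  obtain ⟨K, hK⟩ := ha
  obtain ⟨L, hL⟩ := hb
  obtain ⟨M, hM⟩ := hc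
  obtain ⟨M', hM'⟩ := hd
  refine ub_atom (K + L + M + M' + (i + 20)) (fun j => ?_) fun j => rfl
  have h1 := hK j
  have h2 := hL j
  have h2' := hM j
  have h2'' := hM' j
  have h3 : len (Fm.op i (a j) (b j) (c j) (d j) : Fml) = a j + b j + c j + d j + (i + 9) := by
    simp [len, str, varStr]; omega
  rw [h3]
  have h4 : (K + L + M + M' + (i + 20)) * (N j + 1) = K * (N j + 1) + L * (N j + 1) +
    M * (N j + 1) + M' * (N j + 1) + (i + 20) * (N j + 1) := by ring
  have h5 : i + 20 ≤ (i + 20) * (N j + 1) := Nat.le_mul_of_pos_right _ (by omega)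
  omega

/-- the data of a uniform translation -/
structure Uni (Γ C : J → List Fml) (N : J → ℕ) (I : J → ℕ → Prop) (f : J → ℕ → ℕ)
    (Q : J → ℕ → ℕ → Fml) : Prop where
  gd : ∀ j, Gd (I j) (f j) (Q j)
  lb : ∀ x, okv x → LB N (fun j => f j x)
  ub : ∀ i x, okv x → UB N (fun j => Q j i (f j x))
  eq : ∀ i x y, okv x → okv y → UD Γ C N (fun j =>
    (Fm.eq (f j x) (f j y)).imp ((Q j i (f j x)).imp (Q j i (f j y))))

variable {Γ C : J → List Fml} {I' : J → ℕ → Prop} {f' : J → ℕ → ℕ} {Q' : J → ℕ → ℕ → Fml}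

theorem ub_trf (u : Uni Γ C N I' f' Q') : ∀ {φ : Fml}, Avk φ →
    UB N (fun j => trf (f' j) (Q' j) φ) := by
  intro φ
  induction φ with
  | bot => intro _; exact UB.const _
  | eq x y => rintro ⟨hx, hy⟩; exact ub_eq (u.lb _ hx) (u.lb _ hy)
  | zero x => intro hx; exact ub_zero (u.lb _ hx)
  | succ x y => rintro ⟨hx, hy⟩; exact ub_succ (u.lb _ hx) (u.lb _ hy)
  | add x y z => rintro ⟨hx, hy, hz⟩; exact ub_add (u.lb _ hx) (u.lb _ hy) (u.lb _ hz)
  | mul x y z => rintro ⟨hx, hy, hz⟩; exact ub_mul (u.lb _ hx) (u.lb _ hy) (u.lb _ hz)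
  | op i a b c d =>
    rintro ⟨ha, hb, hc, hd⟩
    by_cases hi : i < 10
    · simp only [trf, hi, if_true]
      exact ub_op i (u.lb _ ha) (u.lb _ hb) (u.lb _ hc) (u.lb _ hd)
    · simp only [trf, hi, if_false]
      exact u.ub i a ha
  | imp φ ψ ih ih' => rintro ⟨h1, h2⟩; exact (ih h1).imp (ih' h2)
  | all x φ ih => rintro ⟨h1, h2⟩; exact (ih h2).all _ (u.lb _ h1)

theorem fm_subst_self (x : ℕ) : ∀ φ : Fml, φ.subst x x = φ := by
  have hr : ∀ u, Form.ren x x u = u := fun u => by unfold Form.ren; split_ifs with h <;> simp [h]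
  intro φ
  induction φ <;> simp_all [Fm.subst]

theorem fm_freeFor_self (x : ℕ) : ∀ φ : Fml, φ.FreeFor x x := by
  intro φ
  induction φ with
  | imp φ ψ ih ih' => exact ⟨ih, ih'⟩
  | all u φ ih =>
    unfold Fm.FreeFor
    by_cases h : u = x
    · exact Or.inl h
    · exact Or.inr (Or.inr ⟨h, ih⟩)
  | _ => trivial

/-- provability with the variables of the schematic formulas -/
inductive PvA (T : Fml → Prop) : Fml → Prop
  | ax {φ : Fml} : T φ → Avk φ → PvA T φ
  | log {φ : Fml} : LogK φ → Avk φ → PvA T φ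
  | mp {φ ψ : Fml} : PvA T (φ.imp ψ) → PvA T φ → PvA T ψ
  | gen {φ : Fml} (x : ℕ) : okv x → PvA T φ → PvA T (Fm.all x φ)

theorem rn_avk {f : ℕ → ℕ} (hf : ∀ x, okv (f x)) : ∀ φ : Fml, Avk (rn f φ) := by
  intro φ
  induction φ with
  | imp φ ψ ih ih' => exact ⟨ih, ih'⟩
  | all u φ ih => exact ⟨hf _, ih⟩
  | _ => simp [rn, Avk, hf]

theorem rn_idk {f g : ℕ → ℕ} (h : ∀ x, okv x → f (g x) = x) :
    ∀ {φ : Fml}, Avk φ → rn f (rn g φ) = φ := by
  intro φ
  induction φ with
  | imp φ ψ ih ih' => rintro ⟨h1, h2⟩; simp [rn, ih h1, ih' h2]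
  | all u φ ih => rintro ⟨h1, h2⟩; simp [rn, ih h2, h _ h1]
  | bot => intro _; rfl
  | zero x => intro h1; simp [rn, h _ h1]
  | eq x y => rintro ⟨h1, h2⟩; simp [rn, h _ h1, h _ h2]
  | succ x y => rintro ⟨h1, h2⟩; simp [rn, h _ h1, h _ h2]
  | add x y z => rintro ⟨h1, h2, h3⟩; simp [rn, h _ h1, h _ h2, h _ h3]
  | mul x y z => rintro ⟨h1, h2, h3⟩; simp [rn, h _ h1, h _ h2, h _ h3]
  | op i a b c d => rintro ⟨h1, h2, h3, h4⟩; simp [rn, h _ h1, h _ h2, h _ h3, h _ h4]

theorem pv_rnk {T T' : Fml → Prop} {f : ℕ → ℕ} (hf : Function.Injective f) (hf' : ∀ x, okv (f x))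
    (hT : ∀ φ, T φ → T' (rn f φ)) {φ : Fml} (h : Pv T φ) : PvA T' (rn f φ) := by
  induction h with
  | ax h => exact PvA.ax (hT _ h) (rn_avk hf' _)
  | log h => exact PvA.log (rn_log hf h) (rn_avk hf' _)
  | mp _ _ ih ih' => exact PvA.mp ih ih'
  | gen x _ ih => exact PvA.gen _ (hf' _) ih

theorem completeK (T : List Fml) (φ : Fml) (hT : ∀ ψ ∈ T, ψ.Closed)
    (hφ : φ.Closed) (hTa : ∀ ψ ∈ T, Avk ψ) (hφa : Avk φ)
    (h : ∀ (S : Str ℕ) (v : ℕ → S.M), (∀ ψ ∈ T, Fm.Sat S ψ v) → Fm.Sat S φ v) :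
    PvA (fun ψ => ψ ∈ T) φ := by
  let f : ℕ → ℕ := fun x => 2 * x + 7
  let g : ℕ → ℕ := fun x => (x - 7) / 2
  have hf : Function.Injective f := by
    intro x y e
    simp only [f] at e
    omega
  have hf' : ∀ x, okv (f x) := by
    intro x
    simp only [f, okv]
    omega
  have hfg : ∀ x, okv x → f (g x) = x := by
    intro x hx
    simp only [okv] at hx
    simp only [f, g]
    omega
  have h1 : Pv (fun ψ => ψ ∈ T.map (rn g)) (rn g φ) := by
    refine Pool.Agent.TH690.J100.completeness _ _ ?_ (rn_closed hφ) ?_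
    · intro ψ hψ
      obtain ⟨χ, h1, rfl⟩ := List.mem_map.1 hψ
      exact rn_closed (hT _ h1)
    · intro S w hw
      have := S.ne
      obtain ⟨v, hv⟩ : ∃ v : ℕ → S.M, v ∘ f = w := by
        refine ⟨fun y => w (Function.invFun f y), ?_⟩
        funext x
        simp only [Function.comp]
        rw [Function.leftInverse_invFun hf x]
      have h2 : ∀ ψ : Fml, Avk ψ → (Fm.Sat S (rn g ψ) w ↔ Fm.Sat S ψ v) := by
        intro ψ hψ
        rw [← hv, ← sat_rn hf, rn_idk hfg hψ]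
      rw [h2 _ hφa]
      refine h S v fun ψ hψ => ?_
      rw [← h2 _ (hTa _ hψ)]
      exact hw _ (List.mem_map_of_mem hψ)
  have h2 := pv_rnk (T' := fun ψ => ψ ∈ T) hf hf' (fun ψ hψ => by
    obtain ⟨χ, h1, rfl⟩ := List.mem_map.1 hψ
    rw [rn_idk hfg (hTa _ h1)]
    exact h1) h1
  rwa [rn_idk hfg hφa] at h2

theorem sw_trf {I : ℕ → Prop} {f : ℕ → ℕ} {Q : ℕ → ℕ → Fml} (_ : Gd I f Q) {x y u u' : ℕ}
    (h : Sw x y u u') : Sw (f x) (f y) (f u) (f u') := by
  rcases h with rfl | ⟨rfl, rfl⟩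
  · exact Or.inl rfl
  · exact Or.inr ⟨rfl, rfl⟩

theorem not_free_of_subst {x y : ℕ} (hy : ¬ okv y) : ∀ {φ : Fml}, Avk φ → Avk (φ.subst x y) →
    ¬ φ.Free x := by
  intro φ
  induction φ with
  | bot => intro _ _ h; exact h
  | eq u v =>
    intro _ h2 hf
    simp only [Fm.subst, Avk] at h2
    rcases hf with rfl | rfl
    · exact hy (by simpa [Form.ren] using h2.1)
    · exact hy (by simpa [Form.ren] using h2.2)
  | zero u =>
    intro _ h2 hf
    simp only [Fm.subst, Avk, Fm.Free] at h2 hf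
    subst hf
    exact hy (by simpa [Form.ren] using h2)
  | succ u v =>
    intro _ h2 hf
    simp only [Fm.subst, Avk] at h2
    rcases hf with rfl | rfl
    · exact hy (by simpa [Form.ren] using h2.1)
    · exact hy (by simpa [Form.ren] using h2.2)
  | add u v w =>
    intro _ h2 hf
    simp only [Fm.subst, Avk] at h2
    rcases hf with rfl | rfl | rfl
    · exact hy (by simpa [Form.ren] using h2.1)
    · exact hy (by simpa [Form.ren] using h2.2.1)
    · exact hy (by simpa [Form.ren] using h2.2.2)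
  | mul u v w =>
    intro _ h2 hf
    simp only [Fm.subst, Avk] at h2
    rcases hf with rfl | rfl | rfl
    · exact hy (by simpa [Form.ren] using h2.1)
    · exact hy (by simpa [Form.ren] using h2.2.1)
    · exact hy (by simpa [Form.ren] using h2.2.2)
  | op i a b c d =>
    intro _ h2 hf
    simp only [Fm.subst, Avk] at h2
    rcases hf with rfl | rfl | rfl | rfl
    · exact hy (by simpa [Form.ren] using h2.1)
    · exact hy (by simpa [Form.ren] using h2.2.1)
    · exact hy (by simpa [Form.ren] using h2.2.2.1)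
    · exact hy (by simpa [Form.ren] using h2.2.2.2)
  | imp φ ψ ih ih' =>
    rintro ⟨h1, h1'⟩ ⟨h2, h2'⟩ (hf | hf)
    · exact ih h1 h2 hf
    · exact ih' h1' h2' hf
  | all u φ ih =>
    rintro ⟨h1, h1'⟩ h2 hf
    simp only [Fm.subst] at h2
    rw [if_neg (fun e => hf.1 e.symm)] at h2
    exact ih h1' h2.2 hf.2

theorem ud_trf (u : Uni Γ C N I' f' Q') {T : Fml → Prop}
    (hT : ∀ ψ, T ψ → Avk ψ → UD Γ C N (fun j => trf (f' j) (Q' j) ψ)) {φ : Fml} (h : PvA T φ) :
    UD Γ C N (fun j => trf (f' j) (Q' j) φ) := by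
  induction h with
  | ax h ha => exact hT _ h ha
  | mp _ _ ih ih' => exact UD.mp ih ih'
  | gen x hx _ ih => exact UD.gen _ (u.lb x hx) ih
  | @log φ h ha =>
    have hb := ub_trf u ha
    cases h with
    | k φ ψ => exact UD.log hb fun j => LogK.k _ _
    | s φ ψ χ => exact UD.log hb fun j => LogK.s _ _ _
    | dn φ => exact UD.log hb fun j => LogK.dn _
    | inst x y φ h =>
      refine UD.log hb fun j => ?_
      have hx : okv x := ha.1.1
      have ha1 : Avk φ := ha.1.2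
      by_cases hy : okv y
      · simp only [trf]
        rw [trf_subst (u.gd j) hx hy ha1]
        exact LogK.inst _ _ _ (trf_freeFor (u.gd j) hx hy ha1 h)
      · have hf : ¬ φ.Free x := not_free_of_subst hy ha1 ha.2
        rw [Pool.Agent.TH690.J100.subst_of_not_free hf]
        simp only [trf]
        have h1 := LogK.inst (f' j x) (f' j x) (trf (f' j) (Q' j) φ) (fm_freeFor_self _ _)
        rwa [fm_subst_self] at h1
    | dist x φ ψ h =>
      exact UD.log hb fun j => LogK.dist _ _ _ (fun h' => h (trf_free (u.gd j) ha.1.1 ha.1.2.1 h'))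
    | refl x => exact UD.log hb fun j => LogK.refl _
    | repl x y φ ψ h =>
      cases h with
      | eq h1 h2 =>
        exact UD.log hb fun j => LogK.repl _ _ _ _ (.eq (sw_trf (u.gd j) h1) (sw_trf (u.gd j) h2))
      | zero h1 => exact UD.log hb fun j => LogK.repl _ _ _ _ (.zero (sw_trf (u.gd j) h1))
      | succ h1 h2 =>
        exact UD.log hb fun j => LogK.repl _ _ _ _
          (.succ (sw_trf (u.gd j) h1) (sw_trf (u.gd j) h2))
      | add h1 h2 h3 =>
        exact UD.log hb fun j => LogK.repl _ _ _ _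
          (.add (sw_trf (u.gd j) h1) (sw_trf (u.gd j) h2) (sw_trf (u.gd j) h3))
      | mul h1 h2 h3 =>
        exact UD.log hb fun j => LogK.repl _ _ _ _
          (.mul (sw_trf (u.gd j) h1) (sw_trf (u.gd j) h2) (sw_trf (u.gd j) h3))
      | @op i a b c d a' b' c' d' h1 h2 h3 h4 =>
        by_cases hi : i < 10
        · refine UD.log hb fun j => ?_
          simp only [trf, hi, if_true]
          exact LogK.repl _ _ _ _ (.op (sw_trf (u.gd j) h1) (sw_trf (u.gd j) h2)
            (sw_trf (u.gd j) h3) (sw_trf (u.gd j) h4))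
        · simp only [trf, hi, if_false]
          rcases h1 with rfl | ⟨rfl, rfl⟩
          · have h5 : UD Γ C N (fun j => (Q' j i (f' j a')).imp (Q' j i (f' j a'))) :=
              UD.ident (u.ub i a' ha.2.1.1)
            have h6 : UB N (fun j => (Fm.eq (f' j x) (f' j y) : Fml)) :=
              ub_eq (u.lb _ ha.1.1) (u.lb _ ha.1.2)
            exact (UD.log (h5.1.imp (h6.imp h5.1)) fun j => LogK.k _ _).mp h5
          · exact u.eq i _ _ ha.1.1 ha.1.2

/-- The step theorem: semantic consequences can be derived uniformly. -/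
theorem ud_step (u : Uni Γ C N I' f' Q') (T : List Fml) (φ : Fml)
    (hT : ∀ ψ ∈ T, ψ.Closed ∧ Avk ψ) (hφ : φ.Closed) (hφa : Avk φ)
    (h : ∀ (S : Str ℕ) (v : ℕ → S.M), (∀ ψ ∈ T, Fm.Sat S ψ v) → Fm.Sat S φ v)
    (hd : ∀ ψ ∈ T, UD Γ C N (fun j => trf (f' j) (Q' j) ψ)) :
    UD Γ C N (fun j => trf (f' j) (Q' j) φ) :=
  ud_trf u (T := fun ψ => ψ ∈ T) (fun ψ hψ _ => hd ψ hψ)
    (completeK T φ (fun ψ hψ => (hT ψ hψ).1) hφ (fun ψ hψ => (hT ψ hψ).2) hφa h)

end Pool.Agent.TH636.BC
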