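import Pool.Agent.TH636.BC.Ext

/-!
# Uniform derivability, natural deduction
-/

set_option autoImplicit false

namespace Pool.Agent.TH636.BC

open Pool.Agent.TH672

theorem le_lin {a b K L n : ℕ} (h : a ≤ K * n) (h' : b ≤ L * n) : a + b ≤ (K + L) * n := by
  rw [Nat.add_mul]; omega

variable {J : Type}

/-- The lengths are bounded linearly, the levels are bounded. -/
def UB (N : J → ℕ) (F : J → Fml) : Prop := ∃ K, ∀ j, len (F j) ≤ K * (N j + 1) ∧ lev (F j) ≤ K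

/-- Uniform derivability. -/
def UD (Γ C : J → List Fml) (N : J → ℕ) (F : J → Fml) : Prop :=
  UB N F ∧ ∃ K, ∀ j, Ext (Γ j) (C j) (K * (N j + 1)) K (F j)

namespace UB

variable {N : J → ℕ} {F G : J → Fml}

theorem const (φ : Fml) : UB N (fun _ => φ) :=
  ⟨len φ + lev φ, fun j => ⟨(Nat.le_add_right _ _).trans (Nat.le_mul_of_pos_right _ (by omega)),
    Nat.le_add_left _ _⟩⟩

theorem mono {K L : ℕ} {φ : Fml} {n : ℕ} (h : len φ ≤ K * n ∧ lev φ ≤ K) (hL : K ≤ L) :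
    len φ ≤ L * n ∧ lev φ ≤ L := ⟨h.1.trans (Nat.mul_le_mul_right _ hL), h.2.trans hL⟩

theorem imp (h : UB N F) (h' : UB N G) : UB N (fun j => (F j).imp (G j)) := by
  obtain ⟨K, hK⟩ := h
  obtain ⟨L, hL⟩ := h'
  refine ⟨K + L + 4, fun j => ⟨?_, ?_⟩⟩
  · rw [len_imp]
    have h3 : 4 ≤ 4 * (N j + 1) := by omega
    exact le_lin (le_lin (hK j).1 (hL j).1) h3
  · have := lev_imp (F j) (G j)
    have := (hK j).2
    have := (hL j).2
    show lev ((F j).imp (G j)) ≤ _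
    omega

theorem all (x : J → ℕ) (hx : ∃ K, ∀ j, x j ≤ K * (N j + 1)) (h : UB N F) :
    UB N (fun j => Fm.all (x j) (F j)) := by
  obtain ⟨K, hK⟩ := h
  obtain ⟨L, hL⟩ := hx
  refine ⟨K + L + 5, fun j => ⟨?_, ?_⟩⟩
  · rw [len_all]
    have h3 : 5 ≤ 5 * (N j + 1) := by omega
    exact le_lin (le_lin (hK j).1 (hL j)) h3
  · have := lev_all (x j) (F j)
    have := (hK j).2
    show lev (Fm.all (x j) (F j)) ≤ _
    omega

theorem bd_const (x : ℕ) : ∃ K, ∀ j, (fun _ : J => x) j ≤ K * (N j + 1) :=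
  ⟨x, fun _ => Nat.le_mul_of_pos_right _ (by omega)⟩

theorem all' (x : ℕ) (h : UB N F) : UB N (fun j => Fm.all x (F j)) :=
  h.all (fun _ => x) (bd_const x)

theorem left (h : UB N (fun j => (F j).imp (G j))) : UB N F := by
  obtain ⟨K, hK⟩ := h
  refine ⟨K + 1, fun j => ⟨?_, ?_⟩⟩
  · refine le_trans ?_ ((hK j).1.trans (Nat.mul_le_mul_right _ (Nat.le_succ K)))
    rw [len_imp]; omega
  · exact (lev_left (F j) (G j)).trans (Nat.succ_le_succ (hK j).2)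

theorem right (h : UB N (fun j => (F j).imp (G j))) : UB N G := by
  obtain ⟨K, hK⟩ := h
  refine ⟨K, fun j => ⟨le_trans (by rw [len_imp]; omega) (hK j).1, ?_⟩⟩
  exact (lev_right (F j) (G j)).trans (hK j).2

theorem of_all {x : J → ℕ} (h : UB N (fun j => Fm.all (x j) (F j))) : UB N F := by
  obtain ⟨K, hK⟩ := h
  refine ⟨K + 1, fun j => ⟨?_, ?_⟩⟩
  · refine le_trans ?_ ((hK j).1.trans (Nat.mul_le_mul_right _ (Nat.le_succ K)))
    rw [len_all]; omega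
  · exact (lev_of_all (x j) (F j)).trans (Nat.succ_le_succ (hK j).2)

end UB

namespace UD

variable {Γ C : J → List Fml} {N : J → ℕ} {F G H : J → Fml}

theorem hyp (hb : UB N F) (h : ∀ j, F j ∈ C j) : UD Γ C N F :=
  ⟨hb, 0, fun j => (Ext.hyp (h j)).le (Nat.zero_le _) le_rfl⟩

theorem ax (hb : UB N F) (h : ∀ j, F j ∈ Γ j) : UD Γ C N F := by
  obtain ⟨K, hK⟩ := hb
  exact ⟨⟨K, hK⟩, K, fun j => (Ext.ax (h j)).le (hK j).1 (hK j).2⟩

theorem log (hb : UB N F) (h : ∀ j, LogK (F j)) : UD Γ C N F := by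
  obtain ⟨K, hK⟩ := hb
  exact ⟨⟨K, hK⟩, K, fun j => (Ext.log (h j)).le (hK j).1 (hK j).2⟩

theorem mp (h : UD Γ C N (fun j => (F j).imp (G j))) (h' : UD Γ C N F) : UD Γ C N G := by
  obtain ⟨hb, K, hK⟩ := h
  obtain ⟨_, L, hL⟩ := h'
  obtain ⟨M, hM⟩ := hb.right
  refine ⟨⟨M, hM⟩, K + L + M, fun j => ?_⟩
  refine (((hK j).le (k' := K + L + M) le_rfl (by omega)).mp
    ((hL j).le (k' := K + L + M) le_rfl (by omega)) ?_).le
      (le_lin (le_lin le_rfl le_rfl) (hM j).1) le_rfl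
  have := (hM j).2
  omega

theorem gen (x : J → ℕ) (hx : ∃ K, ∀ j, x j ≤ K * (N j + 1)) (h : UD Γ C N F) :
    UD Γ C N (fun j => Fm.all (x j) (F j)) := by
  obtain ⟨hb, K, hK⟩ := h
  obtain ⟨M, hM⟩ := hb.all x hx
  refine ⟨⟨M, hM⟩, K + M, fun j => ?_⟩
  refine (((hK j).le (k' := K + M) le_rfl (by omega)).gen (x j) ?_).le
    (le_lin le_rfl (hM j).1) le_rfl
  have : lev (Fm.all (x j) (F j)) ≤ M := (hM j).2
  omega

theorem gen' (x : ℕ) (h : UD Γ C N F) : UD Γ C N (fun j => Fm.all x (F j)) :=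
  h.gen (fun _ => x) (UB.bd_const x)

theorem ctx {C' : J → List Fml} (h : UD Γ C N F) (hC : ∀ j, ∀ ψ ∈ C j, ψ ∈ C' j) :
    UD Γ C' N F := by
  obtain ⟨hb, K, hK⟩ := h
  exact ⟨hb, K, fun j => (hK j).ctx (hC j)⟩

theorem cut (h : UD Γ C N F) (h' : UD Γ (fun j => F j :: C j) N G) : UD Γ C N G := by
  obtain ⟨_, K, hK⟩ := h
  obtain ⟨hb, L, hL⟩ := h'
  exact ⟨hb, K + L, fun j => (((hK j).le (k' := K + L) le_rfl (by omega)).cut
    ((hL j).le (k' := K + L) le_rfl (by omega))).le (le_lin le_rfl le_rfl) le_rfl⟩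

theorem ident (hb : UB N F) : UD Γ C N (fun j => (F j).imp (F j)) := by
  have h1 : UD Γ C N (fun j => (F j).imp (((F j).imp (F j)).imp (F j))) :=
    log (hb.imp ((hb.imp hb).imp hb)) fun j => LogK.k _ _
  have h2 : UD Γ C N (fun j => (F j).imp ((F j).imp (F j))) :=
    log (hb.imp (hb.imp hb)) fun j => LogK.k _ _
  have h3 : UD Γ C N (fun j => ((F j).imp (((F j).imp (F j)).imp (F j))).imp
      (((F j).imp ((F j).imp (F j))).imp ((F j).imp (F j)))) :=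
    log ((hb.imp ((hb.imp hb).imp hb)).imp ((hb.imp (hb.imp hb)).imp (hb.imp hb)))
      fun j => LogK.s _ _ _
  exact (h3.mp h1).mp h2

end UD

/-- Implications with a list of premises; the head of the list is the innermost premise. -/
def Imps : List (J → Fml) → (J → Fml) → (J → Fml)
  | [], F => F
  | G :: Δ, F => Imps Δ (fun j => (G j).imp (F j))

/-- Natural deduction. -/
def ND (Γ C : J → List Fml) (N : J → ℕ) (Δ : List (J → Fml)) (F : J → Fml) : Prop :=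
  (∀ G ∈ Δ, UB N G) ∧ UB N F ∧ UD Γ C N (Imps Δ F)

namespace ND

variable {Γ C : J → List Fml} {N : J → ℕ}

theorem of {F : J → Fml} (h : UD Γ C N F) : ∀ {Δ : List (J → Fml)}, (∀ G ∈ Δ, UB N G) →
    ND Γ C N Δ F := by
  intro Δ
  induction Δ generalizing F with
  | nil => intro _; exact ⟨by simp, h.1, h⟩
  | cons G Δ ih =>
    intro hΔ
    have hG := hΔ G (by simp)
    have h1 : UD Γ C N (fun j => (G j).imp (F j)) :=
      (UD.log (h.1.imp (hG.imp h.1)) fun j => LogK.k _ _).mp h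
    have h2 := ih h1 fun H hH => hΔ H (List.mem_cons_of_mem _ hH)
    exact ⟨hΔ, h.1, h2.2.2⟩

theorem mp : ∀ {Δ : List (J → Fml)} {F G : J → Fml},
    ND Γ C N Δ (fun j => (F j).imp (G j)) → ND Γ C N Δ F → ND Γ C N Δ G
  | [], _, _, h, h' => ⟨by simp, h.2.1.right, UD.mp h.2.2 h'.2.2⟩
  | H :: Δ, F, G, h, h' => by
    have hH := h.1 H (by simp)
    have hF := h'.2.1
    have hG := h.2.1.right
    have hΔ : ∀ G ∈ Δ, UB N G := fun H hH => h.1 H (List.mem_cons_of_mem _ hH)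
    have h1 : ND Γ C N Δ (fun j => ((H j).imp ((F j).imp (G j))).imp
        (((H j).imp (F j)).imp ((H j).imp (G j)))) :=
      ND.of (UD.log ((hH.imp (hF.imp hG)).imp ((hH.imp hF).imp (hH.imp hG)))
        fun j => LogK.s _ _ _) hΔ
    have h2 : ND Γ C N Δ (fun j => (H j).imp ((F j).imp (G j))) :=
      ⟨hΔ, hH.imp (hF.imp hG), h.2.2⟩
    have h3 : ND Γ C N Δ (fun j => (H j).imp (F j)) := ⟨hΔ, hH.imp hF, h'.2.2⟩
    exact ⟨h.1, hG, ((h1.mp h2).mp h3).2.2⟩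

theorem intro {Δ : List (J → Fml)} {F G : J → Fml} (h : ND Γ C N (F :: Δ) G) :
    ND Γ C N Δ (fun j => (F j).imp (G j)) :=
  ⟨fun H hH => h.1 H (List.mem_cons_of_mem _ hH), (h.1 F (by simp)).imp h.2.1, h.2.2⟩

theorem weak {Δ : List (J → Fml)} {F G : J → Fml} (hb : UB N G) (h : ND Γ C N Δ F) :
    ND Γ C N (G :: Δ) F := by
  have h1 : ND Γ C N Δ (fun j => (F j).imp ((G j).imp (F j))) :=
    ND.of (UD.log (h.2.1.imp (hb.imp h.2.1)) fun j => LogK.k _ _) h.1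
  refine ⟨?_, h.2.1, (h1.mp h).2.2⟩
  intro H hH
  rcases List.mem_cons.1 hH with rfl | hH
  · exact hb
  · exact h.1 H hH

theorem hyp : ∀ {Δ : List (J → Fml)} {F : J → Fml}, (∀ G ∈ Δ, UB N G) → F ∈ Δ → ND Γ C N Δ F
  | G :: Δ, F, hΔ, hF => by
    have hΔ' : ∀ G ∈ Δ, UB N G := fun H hH => hΔ H (List.mem_cons_of_mem _ hH)
    rcases List.mem_cons.1 hF with rfl | h
    · exact ⟨hΔ, hΔ _ (by simp), (ND.of (UD.ident (hΔ _ (by simp))) hΔ').2.2⟩
    · exact ND.weak (hΔ G (by simp)) (ND.hyp hΔ' h)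

theorem gen (x : J → ℕ) (hx' : ∃ K, ∀ j, x j ≤ K * (N j + 1)) :
    ∀ {Δ : List (J → Fml)} {F : J → Fml}, (∀ G ∈ Δ, ∀ j, ¬ (G j).Free (x j)) →
    ND Γ C N Δ F → ND Γ C N Δ (fun j => Fm.all (x j) (F j))
  | [], _, _, h => ⟨by simp, h.2.1.all x hx', UD.gen x hx' h.2.2⟩
  | G :: Δ, F, hx, h => by
    have hΔ' : ∀ G ∈ Δ, UB N G := fun H hH => h.1 H (List.mem_cons_of_mem _ hH)
    have hG := h.1 G (by simp)
    have h1 : ND Γ C N Δ (fun j => Fm.all (x j) ((G j).imp (F j))) :=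
      ND.gen x hx' (fun H hH => hx H (List.mem_cons_of_mem _ hH)) (ND.intro h)
    have h2 : ND Γ C N Δ (fun j => (Fm.all (x j) ((G j).imp (F j))).imp
        ((G j).imp (Fm.all (x j) (F j)))) :=
      ND.of (UD.log (((hG.imp h.2.1).all x hx').imp (hG.imp (h.2.1.all x hx')))
        fun j => LogK.dist _ _ _ (hx G (by simp) j)) hΔ'
    exact ⟨h.1, h.2.1.all x hx', (h2.mp h1).2.2⟩

theorem gen' (x : ℕ) {Δ : List (J → Fml)} {F : J → Fml} (hx : ∀ G ∈ Δ, ∀ j, ¬ (G j).Free x)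
    (h : ND Γ C N Δ F) : ND Γ C N Δ (fun j => Fm.all x (F j)) :=
  gen (fun _ => x) (UB.bd_const x) hx h

theorem log {Δ : List (J → Fml)} {F : J → Fml} (hΔ : ∀ G ∈ Δ, UB N G) (hb : UB N F)
    (h : ∀ j, LogK (F j)) : ND Γ C N Δ F := ND.of (UD.log hb h) hΔ

theorem ud {F : J → Fml} (h : ND Γ C N [] F) : UD Γ C N F := h.2.2

end ND

end Pool.Agent.TH636.BC
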